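import Pool.Agent.CoL18.Main

/-!
# CoL18: the reduction to critical graphs
-/

set_option autoImplicit false
set_option linter.unusedVariables false

namespace Pool.Agent.CoL18

open Finset Pool.Agent.HM Pool.Agent.CA31 Pool.Agent.CA72 Pool.Agent.CA31C Pool.Agent.T3
open scoped Classical

/-- `G` is the graph of disjointness of a family of sets with at most two elements -/
structure Le2 {V α : Type} (G : SimpleGraph V) (s : V → Finset α) : Prop where
  two : ∀ v, (s v).card ≤ 2
  adj : ∀ u v, u ≠ v → (G.Adj u v ↔ Disjoint (s u) (s v))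

variable {α : Type}

theorem Le2.induce {V : Type} {G : SimpleGraph V} {s : V → Finset α} (h : Le2 G s) (A : Set V) :
    Le2 (G.induce A) (fun v : A => s v.1) :=
  ⟨fun v => h.two v.1, fun u v huv => h.adj u.1 v.1 (fun e => huv (Subtype.ext e))⟩

/-- no vertex of a critical graph is dominated -/
theorem not_dom {V : Type} {G : SimpleGraph V} {k : ℕ} (hk : ¬ G.Colorable k) {u v : V}
    (hcrit : (G.induce {w | w ≠ u}).Colorable k) (huv : u ≠ v)
    (hd : ∀ w, G.Adj u w → G.Adj v w) : False := by
  have hnadj : ¬ G.Adj u v := fun h => G.loopless.irrefl _ (hd v h)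
  obtain ⟨C⟩ := hcrit
  refine hk ⟨SimpleGraph.Coloring.mk (fun w => if h : w = u then C ⟨v, huv.symm⟩ else C ⟨w, h⟩) ?_⟩
  intro x y hxy
  by_cases hx : x = u <;> by_cases hy : y = u
  · exact absurd (hx.trans hy.symm) hxy.ne
  · simp only [hx, hy, dif_pos, dif_neg, not_false_eq_true]
    subst hx
    exact C.valid (v := ⟨v, huv.symm⟩) (w := ⟨y, hy⟩) (hd y hxy)
  · simp only [hx, hy, dif_pos, dif_neg, not_false_eq_true]
    subst hy
    exact C.valid (v := ⟨x, hx⟩) (w := ⟨v, huv.symm⟩) (hd x hxy.symm).symm
  · simp only [hx, hy, dif_neg, not_false_eq_true]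
    exact C.valid (v := ⟨x, hx⟩) (w := ⟨y, hy⟩) hxy

theorem edge_of {V : Type} [Fintype V] {G : SimpleGraph V} {s : V → Finset α} (h : Le2 G s) {k : ℕ}
    (hk : ¬ G.Colorable k) (hcrit : ∀ v, (G.induce {w | w ≠ v}).Colorable k)
    (hconn : Gᶜ.Preconnected) (hnt : Nontrivial V) : Edge G s := by
  have hnb : ∀ v, ∃ w, Gᶜ.Adj v w := fun v => hconn.exists_adj_of_nontrivial v
  have hnd : ∀ u v, u ≠ v → ¬ (∀ w, G.Adj u w → G.Adj v w) := fun u v huv hd =>
    not_dom hk (hcrit u) huv hd
  have htwo : ∀ v, (s v).card = 2 := by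
    intro v
    by_contra hne
    have hle : (s v).card ≤ 1 := by
      have := h.two v
      omega
    obtain ⟨w, hvw⟩ := hnb v
    rw [SimpleGraph.compl_adj] at hvw
    have h1 : ¬ Disjoint (s v) (s w) := fun hd => hvw.2 ((h.adj v w hvw.1).2 hd)
    rw [Finset.not_disjoint_iff] at h1
    obtain ⟨a, ha, haw⟩ := h1
    have hsv : s v = {a} := by
      ext x
      rw [mem_singleton]
      exact ⟨fun hx => card_le_one.1 hle x hx a ha, fun e => e ▸ ha⟩
    refine hnd w v hvw.1.symm (fun x hx => ?_)
    have h2 := (h.adj w x hx.ne).1 hx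
    have h3 : a ∉ s x := Finset.disjoint_left.1 h2 haw
    have h4 : v ≠ x := by
      rintro rfl
      exact h3 ha
    rw [h.adj v x h4, hsv, disjoint_singleton_left]
    exact h3
  refine ⟨htwo, ?_, h.adj⟩
  intro u v huv
  by_contra hne
  refine hnd u v hne (fun w hw => ?_)
  have h2 := (h.adj u w hw.ne).1 hw
  have h3 : v ≠ w := by
    rintro rfl
    rw [huv, disjoint_self_iff_empty] at h2
    have := htwo v
    rw [h2] at this
    simp at this
  rw [h.adj v w h3, ← huv]
  exact h2

/-- Hadwiger's conjecture for the class -/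
theorem main {V : Type} [Fintype V] {G : SimpleGraph V} {s : V → Finset α} (h : Le2 G s) {k : ℕ}
    (hk : ¬ G.Colorable k) : HasMinor G (k + 1) := by
  suffices haux : ∀ n : ℕ, ∀ (V : Type) [Fintype V] (G : SimpleGraph V) (s : V → Finset α),
      Le2 G s → Fintype.card V = n → ∀ k : ℕ, ¬ G.Colorable k → HasMinor G (k + 1) from
    haux _ V G s h rfl k hk
  clear hk h
  intro n
  induction n using Nat.strong_induction_on with
  | _ n ih =>
    intro V _ G s hG hn k hk
    by_contra hno
    have hmin : ∀ A : Set V, A ≠ Set.univ → ∀ t : ℕ, ¬ (G.induce A).Colorable t →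
        HasMinor (G.induce A) (t + 1) := by
      intro A hA t ht
      obtain ⟨v, hv⟩ := (Set.ne_univ_iff_exists_notMem A).1 hA
      have hlt : Fintype.card A < n := by
        rw [← hn]
        exact Fintype.card_subtype_lt (x := v) hv
      exact ih _ hlt A (G.induce A) _ (hG.induce A) rfl t ht
    have hcrit : ∀ v, (G.induce {w | w ≠ v}).Colorable k := by
      intro v
      by_contra hcol
      apply hno
      refine hasMinor_of_induce (A := {w | w ≠ v}) (hmin _ ?_ k hcol)
      rw [Set.ne_univ_iff_exists_notMem]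
      exact ⟨v, fun h => h rfl⟩
    have hconn : Gᶜ.Preconnected := by
      by_contra hcon
      unfold SimpleGraph.Preconnected at hcon
      push Not at hcon
      obtain ⟨u, v, huv⟩ := hcon
      set A : Set V := {w | Gᶜ.Reachable u w} with hA
      have huA : u ∈ A := SimpleGraph.Reachable.refl u
      have hvA : v ∉ A := huv
      have hjoin : ∀ a ∈ A, ∀ b ∈ Aᶜ, G.Adj a b := by
        intro a ha b hb
        by_contra h
        have hne : a ≠ b := by
          rintro rfl
          exact hb ha
        have h1 : Gᶜ.Adj a b := by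
          rw [SimpleGraph.compl_adj]
          exact ⟨hne, h⟩
        exact hb (SimpleGraph.Reachable.trans ha h1.reachable)
      have hAu : A ≠ Set.univ := by
        rw [Set.ne_univ_iff_exists_notMem]
        exact ⟨v, hvA⟩
      have hAcu : Aᶜ ≠ Set.univ := by
        rw [Set.ne_univ_iff_exists_notMem]
        exact ⟨u, fun h => h huA⟩
      obtain ⟨a, ha1, ha2⟩ := exists_chi (G.induce A)
      obtain ⟨b, hb1, hb2⟩ := exists_chi (G.induce Aᶜ)
      have hmA : HasMinor (G.induce A) a := minor_of_chi (fun t ht => hmin A hAu t ht) ha2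
      have hmB : HasMinor (G.induce Aᶜ) b := minor_of_chi (fun t ht => hmin Aᶜ hAcu t ht) hb2
      have hab : k + 1 ≤ a + b := by
        by_contra hlt
        exact hk ((colorable_join ha1 hb1).mono (by omega))
      exact hno (hasMinor_mono hab (hasMinor_join hjoin hmA hmB))
    rcases Nat.lt_or_ge k 2 with hk2 | hk2
    · exact hno (small_case hk hk2)
    · have hnt : Nontrivial V := by
        rw [← Fintype.one_lt_card_iff_nontrivial]
        have := gallai_card hk hcrit hconn
        omega
      exact hno (crit_case (edge_of hG hk hcrit hconn hnt) hk hcrit hconn)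

end Pool.Agent.CoL18
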