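import Pool.Agent.CoL18.Mat
import Pool.Agent.T3.Berge
import Pool.Agent.HM.Reduce

/-!
# CoL18: a matching with `k + 1` pairs or a clique with `k + 1` vertices
-/

set_option autoImplicit false
set_option linter.unusedVariables false

namespace Pool.Agent.CoL18

open Finset Pool.Agent.HM
open scoped Classical

variable {V : Type} [Fintype V] {G : SimpleGraph V} {k : ℕ}

theorem deg (hk : ¬ G.Colorable k) {v : V} (hcrit : (G.induce {w | w ≠ v}).Colorable k) :
    k ≤ (univ.filter (fun w => G.Adj v w)).card := by
  by_contra hcon
  push Not at hcon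
  obtain ⟨C⟩ := hcrit
  let ψ : V → Option (Fin k) := fun w => if h : w = v then none else some (C ⟨w, h⟩)
  have hψ : ∀ w (h : w ≠ v), ψ w = some (C ⟨w, h⟩) := fun w h => dif_neg h
  have hex : ∃ a : Fin k, ∀ w, G.Adj v w → ψ w ≠ some a := by
    by_contra hno
    push Not at hno
    choose f hf1 hf2 using hno
    have hinj : Function.Injective f := by
      intro a b hab
      have h1 := hf2 a
      have h2 := hf2 b
      rw [hab, h2] at h1
      exact (Option.some.inj h1).symm
    have := Finset.card_le_card_of_injOn (s := (univ : Finset (Fin k)))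
      (t := univ.filter (fun w => G.Adj v w)) f
      (fun a _ => by simpa using hf1 a) (fun a _ b _ hab => hinj hab)
    rw [card_univ, Fintype.card_fin] at this
    omega
  obtain ⟨a, ha⟩ := hex
  refine hk ⟨SimpleGraph.Coloring.mk (fun w => if h : w = v then a else C ⟨w, h⟩) ?_⟩
  intro x y hxy
  by_cases hx : x = v <;> by_cases hy : y = v
  · exact absurd (hx.trans hy.symm) hxy.ne
  · simp only [hx, hy, dif_pos, dif_neg, not_false_eq_true]
    intro he
    subst hx
    exact ha y hxy (by rw [hψ y hy, he])
  · simp only [hx, hy, dif_pos, dif_neg, not_false_eq_true]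
    intro he
    subst hy
    exact ha x hxy.symm (by rw [hψ x hx, he])
  · simp only [hx, hy, dif_neg, not_false_eq_true]
    exact C.valid (v := ⟨x, hx⟩) (w := ⟨y, hy⟩) hxy

theorem arith {I : Type} [Fintype I] (n : I → ℕ) {a u : ℕ} (ha : 2 ≤ a)
    (h1 : ∑ i, n i / 2 ≤ a - 1) (h2 : ∀ i, n i = 0 ∨ a ≤ n i) (h3 : 2 * a + u ≤ ∑ i, n i) :
    u = 0 ∧ ∃ i, n i = a := by
  have hpos : ∀ J : Finset I, 0 < ∑ i ∈ J, n i → ∃ i ∈ J, a ≤ n i := by
    intro J hJ
    by_contra hno
    push Not at hno
    have : ∑ i ∈ J, n i = 0 := Finset.sum_eq_zero (fun i hi => by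
      have := hno i hi
      rcases h2 i with h | h
      · exact h
      · omega)
    omega
  obtain ⟨i1, -, hi1⟩ := hpos univ (by omega)
  have e1 := Finset.add_sum_erase univ n (mem_univ i1)
  have e2 := Finset.add_sum_erase univ (fun i => n i / 2) (mem_univ i1)
  obtain ⟨i2, hi2m, hi2⟩ := hpos (univ.erase i1) (by omega)
  have e3 := Finset.add_sum_erase (univ.erase i1) n hi2m
  have e4 := Finset.add_sum_erase (univ.erase i1) (fun i => n i / 2) hi2m
  have hrest : ∑ i ∈ (univ.erase i1).erase i2, n i = 0 := by
    by_contra hne
    obtain ⟨i3, hi3m, hi3⟩ := hpos ((univ.erase i1).erase i2) (by omega)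
    have e6 := Finset.add_sum_erase ((univ.erase i1).erase i2) (fun i => n i / 2) hi3m
    omega
  exact ⟨by omega, i1, by omega⟩

theorem th_of_col (hk : ¬ G.Colorable k) : k + 1 ≤ th G univ := by
  by_contra hcon
  have h1 : th G univ ≤ k := by omega
  rw [th_le_iff] at h1
  obtain ⟨φ, h2, h3⟩ := h1
  exact hk ⟨SimpleGraph.Coloring.mk (fun v => (⟨φ v, h2 v (mem_univ _)⟩ : Fin k))
    (fun {u v} huv he => h3 u (mem_univ _) v (mem_univ _) huv (congrArg Fin.val he))⟩

theorem match_or_clique (hk : ¬ G.Colorable k)
    (hcrit : ∀ v, (G.induce {w | w ≠ v}).Colorable k) (hn : 2 * (k + 1) ≤ Fintype.card V) :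
    (∃ p : Fin (k + 1) × Bool → V, Mt G p) ∨
    ∃ Q : Finset V, (∀ x ∈ Q, ∀ y ∈ Q, x ≠ y → G.Adj x y) ∧ k + 1 ≤ Q.card := by
  by_cases hb : ∀ (U : Finset V) (I : Type) [Fintype I] (comp : V → I),
      (∀ u v, u ∉ U → v ∉ U → comp u ≠ comp v → ¬ G.Adj u v) →
      k + 1 ≤ U.card + ∑ i, (univ.filter (fun v => v ∉ U ∧ comp v = i)).card / 2
  · left
    obtain ⟨x, y, h1, h2, h3⟩ := Pool.Agent.T3.berge G (k + 1) hn hb
    refine ⟨fun q => if q.2 then y q.1 else x q.1, ⟨?_, ?_⟩⟩
    · rintro ⟨i, b⟩ ⟨j, c⟩ he
      cases b <;> cases c <;> simp only [Bool.false_eq_true, if_false, if_true] at he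
      · by_contra hne
        exact (h2 i j (fun e => hne (by rw [e]))).1 he
      · exact absurd he (h3 i j)
      · exact absurd he.symm (h3 j i)
      · by_contra hne
        exact (h2 i j (fun e => hne (by rw [e]))).2 he
    · intro i b
      cases b
      · simpa using h1 i
      · simpa using (h1 i).symm
  · right
    push Not at hb
    obtain ⟨U, I, hI, comp, hno, hU⟩ := hb
    set n : I → ℕ := fun i => (univ.filter (fun v => v ∉ U ∧ comp v = i)).card with hn'
    have hdeg : ∀ v, k ≤ (univ.filter (fun w => G.Adj v w)).card := fun v => deg hk (hcrit v)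
    have hnb : ∀ v, v ∉ U → univ.filter (fun w => G.Adj v w) ⊆
        U ∪ (univ.filter (fun w => w ∉ U ∧ comp w = comp v)).erase v := by
      intro v hv w hw
      simp only [mem_filter, mem_univ, true_and] at hw
      by_cases hwU : w ∈ U
      · exact mem_union_left _ hwU
      · refine mem_union_right _ (mem_erase.2 ⟨hw.ne', ?_⟩)
        simp only [mem_filter, mem_univ, true_and]
        refine ⟨hwU, ?_⟩
        by_contra hne
        exact hno v w hv hwU (fun e => hne e.symm) hw
    have hcl : ∀ v, v ∉ U → k + 1 ≤ U.card + n (comp v) := by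
      intro v hv
      have h1 := card_le_card (hnb v hv)
      have h2 := card_union_le U ((univ.filter (fun w => w ∉ U ∧ comp w = comp v)).erase v)
      have hvm : v ∈ univ.filter (fun w => w ∉ U ∧ comp w = comp v) := by simp [hv]
      rw [card_erase_of_mem hvm] at h2
      have h3 := card_pos.2 ⟨v, hvm⟩
      have h4 := hdeg v
      show k + 1 ≤ U.card + (univ.filter (fun w => w ∉ U ∧ comp w = comp v)).card
      omega
    have hsum : ∑ i, n i + U.card = Fintype.card V := by
      have h1 : (univ \ U).card = ∑ i, n i := by
        rw [Finset.card_eq_sum_card_fiberwise (f := comp) (t := (univ : Finset I))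
          (fun _ _ => Finset.mem_coe.2 (Finset.mem_univ _))]
        refine Finset.sum_congr rfl (fun i _ => ?_)
        show _ = (univ.filter (fun v => v ∉ U ∧ comp v = i)).card
        congr 1
        ext v
        simp
      rw [← h1, Finset.card_sdiff_of_subset (Finset.subset_univ U), Finset.card_univ]
      have := Finset.card_le_univ U
      omega
    have hUk : U.card ≤ k := by omega
    by_cases ha : U.card = k
    · -- the rest is stable
      have hn1 : ∀ i, n i ≤ 1 := by
        intro i
        have h1 : n i / 2 ≤ ∑ i, n i / 2 := Finset.single_le_sum (f := fun i => n i / 2)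
          (fun _ _ => Nat.zero_le _) (mem_univ i)
        have h2 : U.card + ∑ i, n i / 2 < k + 1 := hU
        omega
      have hst : ∀ x y, x ∉ U → y ∉ U → ¬ G.Adj x y := by
        intro x y hx hy hxy
        have hc : comp x = comp y := by
          by_contra hne
          exact hno x y hx hy hne hxy
        have h1 := hn1 (comp x)
        have h2 : 1 < (univ.filter (fun v => v ∉ U ∧ comp v = comp x)).card :=
          one_lt_card.2 ⟨x, by simp [hx], y, by simp [hy, hc], hxy.ne⟩
        have h3 : n (comp x) = (univ.filter (fun v => v ∉ U ∧ comp v = comp x)).card := rfl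
        omega
      have hfull : ∀ x, x ∉ U → ∀ y ∈ U, G.Adj x y := by
        intro x hx y hy
        have h1 : univ.filter (fun w => G.Adj x w) ⊆ U := by
          intro w hw
          simp only [mem_filter, mem_univ, true_and] at hw
          by_contra hwU
          exact hst x w hx hwU hw
        have h2 := eq_of_subset_of_card_le h1 (by have := hdeg x; omega)
        rw [← h2] at hy
        simpa using hy
      obtain ⟨x, hx⟩ : ∃ x, x ∉ U := by
        by_contra hall
        push Not at hall
        have h1 : (univ : Finset V).card ≤ U.card := card_le_card (fun v _ => hall v)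
        rw [card_univ] at h1
        omega
      refine ⟨insert x U, ?_, by rw [card_insert_of_notMem hx]; omega⟩
      have hclU : ∀ y ∈ U, ∀ z ∈ U, y ≠ z → G.Adj y z := by
        intro y hy z hz hyz
        by_contra hyz'
        have h1 := th_succ_le_card hy hz hyz hyz'
        have h2 : th G (univ \ U) ≤ 1 := th_le_one (fun a ha b hb =>
          hst a b (mem_sdiff.1 ha).2 (mem_sdiff.1 hb).2)
        have h3 := th_union_le (G := G) U (univ \ U)
        rw [union_sdiff_of_subset (subset_univ U)] at h3
        have h4 := th_of_col hk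
        omega
      intro y hy z hz hyz
      rw [mem_insert] at hy hz
      rcases hy with rfl | hy <;> rcases hz with rfl | hz
      · exact absurd rfl hyz
      · exact hfull _ hx _ hz
      · exact (hfull _ hx _ hy).symm
      · exact hclU y hy z hz hyz
    · have h1 := arith n (a := k + 1 - U.card) (u := U.card) (by omega) (by
          have : U.card + ∑ i, n i / 2 < k + 1 := hU
          omega) (by
          intro i
          by_cases hi : n i = 0
          · exact Or.inl hi
          · right
            obtain ⟨v, hv⟩ := card_pos.1 (Nat.pos_of_ne_zero hi)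
            simp only [mem_filter, mem_univ, true_and] at hv
            have := hcl v hv.1
            rw [hv.2] at this
            omega) (by omega)
      obtain ⟨hu0, i, hi⟩ := h1
      have hUe : U = ∅ := card_eq_zero.1 hu0
      refine ⟨univ.filter (fun v => v ∉ U ∧ comp v = i), ?_, by
        show k + 1 ≤ n i
        omega⟩
      intro x hx y hy hxy
      simp only [mem_filter, mem_univ, true_and] at hx hy
      have h2 : univ.filter (fun w => G.Adj x w) ⊆
          (univ.filter (fun w => w ∉ U ∧ comp w = comp x)).erase x := by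
        have := hnb x hx.1
        rw [hUe] at this
        rw [hUe]
        simpa using this
      have hxm : x ∈ univ.filter (fun w => w ∉ U ∧ comp w = comp x) := by simp [hx.1]
      have h3 := eq_of_subset_of_card_le h2 (by
        rw [card_erase_of_mem hxm]
        have h4 := hdeg x
        have h5 : (univ.filter (fun w => w ∉ U ∧ comp w = comp x)).card = n i := by
          show _ = (univ.filter (fun w => w ∉ U ∧ comp w = i)).card
          rw [hx.2]
        omega)
      have h4 : y ∈ (univ.filter (fun w => w ∉ U ∧ comp w = comp x)).erase x := by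
        rw [mem_erase]
        refine ⟨hxy.symm, ?_⟩
        simp only [mem_filter, mem_univ, true_and]
        exact ⟨hy.1, hy.2.trans hx.2.symm⟩
      rw [← h3] at h4
      simpa using h4

end Pool.Agent.CoL18
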