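import Pool.Agent.CoL18.Tab

/-!
# CoL18: the structure around a conflict, the case of two partners
-/

set_option autoImplicit false
set_option linter.unusedVariables false

namespace Pool.Agent.CoL18

variable {α : Type*} {M : α → α → α → α → Prop} {U : α → α → Prop}

/-- the partner of `{a, c}` is `{b, x}` and the partner of `{b, d}` is `{a, y}`: elements outside -/
theorem Sys.d1' (S : Sys M U) {a b c d x y u v : α} (h : Cyc M a b c d) (hx : Out a b c d x)
    (hM : M a c b x) (hy : Out a b c d y) (hN : M b d a y) (hu : Out a b c d u)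
    (hv : Out a b c d v) (he : El M U u v) :
    (M a x u v ∧ (M a u b y ∨ M a v b y)) ∨ (M b y u v ∧ (M a x b u ∨ M a x b v)) := by
  have h0 := S.dist h.1
  obtain ⟨t12, t23, t34, t41, t13, t24, i1, i2, i3, i4, gg, ug, u1, u2, u3, u4⟩ := S.tab h
  have sy := S.sy
  have fn := S.fn
  have main : ∀ p q, (p = a ∨ p = b ∨ p = c ∨ p = d) → Out a b c d q → M p q u v →
      (M a x u v ∧ (M a u b y ∨ M a v b y)) ∨ (M b y u v ∧ (M a x b u ∨ M a x b v)) := by
    intro p q hp hq he
    have h1 := S.dist he
    clear S ug u1 u2 u3 u4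
    rcases hp with rfl | rfl | rfl | rfl
    · have := i1 q u v hq hu hv he
      clear i1 i2 i3 i4 gg
      grind (ematch := 8) (instances := 3000)
    · have := i2 q u v hq hu hv he
      clear i1 i2 i3 i4 gg
      grind (ematch := 8) (instances := 3000)
    · have := i3 q u v hq hu hv he
      clear i1 i2 i3 i4 gg
      grind (ematch := 8) (instances := 3000)
    · have := i4 q u v hq hu hv he
      clear i1 i2 i3 i4 gg
      grind (ematch := 8) (instances := 3000)
  rcases he with he | ⟨p, q, he⟩
  · exact absurd he (ug _ _ hu hv)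
  · have h1 := S.dist he
    have hp : (p = a ∨ p = b ∨ p = c ∨ p = d) ∨ Out a b c d p := by grind
    have hq : (q = a ∨ q = b ∨ q = c ∨ q = d) ∨ Out a b c d q := by grind
    rcases hp with hp | hp <;> rcases hq with hq | hq
    · obtain ⟨h6, h7⟩ := h
      clear S ug u1 u2 u3 u4 main i1 i2 i3 i4 gg t12 t23 t34 t41 t13 t24
      rcases hp with rfl | rfl | rfl | rfl <;> rcases hq with rfl | rfl | rfl | rfl <;> grind
    · exact main p q hp hq (S.s2 _ _ _ _ he)
    · exact main q p hq hp (S.s1 _ _ _ _ (S.s2 _ _ _ _ he))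
    · exact absurd he (gg _ _ _ _ hu hv hp hq)

/-- elements `{c, z}` with `z` outside -/
theorem Sys.d3' (S : Sys M U) {a b c d x y z : α} (h : Cyc M a b c d) (hx : Out a b c d x)
    (hM : M a c b x) (hy : Out a b c d y) (hN : M b d a y) (hz : Out a b c d z)
    (he : El M U c z) : z = x ∧ ∃ w, Out a b c d w ∧ M b w c x := by
  have h0 := S.dist h.1
  obtain ⟨t12, t23, t34, t41, t13, t24, i1, i2, i3, i4, gg, ug, u1, u2, u3, u4⟩ := S.tab h
  have sy := S.sy
  have fn := S.fn
  rcases he with he | ⟨p, q, he⟩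
  · exact absurd he (u3 _ hz)
  · have h1 := S.dist he
    have hp : p = a ∨ p = b ∨ p = c ∨ p = d ∨ Out a b c d p := by grind
    have hq : q = a ∨ q = b ∨ q = c ∨ q = d ∨ Out a b c d q := by grind
    obtain ⟨h6, h7⟩ := h
    clear S ug u1 u2 u3 u4
    rcases hp with rfl | rfl | rfl | rfl | hp <;> rcases hq with rfl | rfl | rfl | rfl | hq <;>
      grind (ematch := 8) (instances := 3000)

/-- elements `{d, z}` with `z` outside -/
theorem Sys.d4' (S : Sys M U) {a b c d x y z : α} (h : Cyc M a b c d) (hx : Out a b c d x)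
    (hM : M a c b x) (hy : Out a b c d y) (hN : M b d a y) (hz : Out a b c d z)
    (he : El M U d z) : z = y ∧ ∃ w, Out a b c d w ∧ M a w d y := by
  have h0 := S.dist h.1
  obtain ⟨t12, t23, t34, t41, t13, t24, i1, i2, i3, i4, gg, ug, u1, u2, u3, u4⟩ := S.tab h
  have sy := S.sy
  have fn := S.fn
  rcases he with he | ⟨p, q, he⟩
  · exact absurd he (u4 _ hz)
  · have h1 := S.dist he
    have hp : p = a ∨ p = b ∨ p = c ∨ p = d ∨ Out a b c d p := by grind
    have hq : q = a ∨ q = b ∨ q = c ∨ q = d ∨ Out a b c d q := by grind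
    obtain ⟨h6, h7⟩ := h
    clear S ug u1 u2 u3 u4
    rcases hp with rfl | rfl | rfl | rfl | hp <;> rcases hq with rfl | rfl | rfl | rfl | hq <;>
      grind (ematch := 8) (instances := 3000)

end Pool.Agent.CoL18
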