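import Pool.Agent.CoL18.Tab2
import Pool.Agent.CoL18.Tab3

/-!
# CoL18: no conflict
-/

set_option autoImplicit false
set_option linter.unusedVariables false

namespace Pool.Agent.CoL18

variable {α : Type*} {M : α → α → α → α → Prop} {U : α → α → Prop}

/-- pairwise intersecting elements -/
def Stb (M : α → α → α → α → Prop) (U : α → α → Prop) (A : α → α → Prop) : Prop :=
  ∀ u w u' w', A u w → A u' w' → El M U u w → El M U u' w' → u = u' ∨ u = w' ∨ w = u' ∨ w = w'

/-- the counting rules: `K` is the number of pairs, and fewer than `K` stable sets do not cover -/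
structure Ctx (M : α → α → α → α → Prop) (U : α → α → Prop) (K : ℕ) : Prop where
  sys : Sys M U
  cnt : ∀ (z : α) (l : List α), l.Nodup → (∀ b ∈ l, ∃ p q, M z b p q) → l.length ≤ K
  cov : ∀ L : List (α → α → Prop), L.length < K → (∀ A ∈ L, Stb M U A) →
    (∀ u w, El M U u w → ∃ A ∈ L, A u w) → False
  con : ∀ A : α → α → Prop,
    (∀ u w u' w', El M U u w → A u w → El M U u' w' → ¬ A u' w' →
      u ≠ u' ∧ u ≠ w' ∧ w ≠ u' ∧ w ≠ w') →
    (∃ u w, El M U u w ∧ A u w) → ∀ u w, El M U u w → A u w

/-- star -/
def St (z u w : α) : Prop := u = z ∨ w = z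
/-- triangle -/
def Tr (p q r u w : α) : Prop := (u = p ∨ u = q ∨ u = r) ∧ (w = p ∨ w = q ∨ w = r)
/-- single element -/
def Si (p q u w : α) : Prop := (u = p ∧ w = q) ∨ (u = q ∧ w = p)

theorem El.ne (S : Sys M U) {u w : α} (h : El M U u w) : u ≠ w := by
  rcases h with h | ⟨p, q, h⟩
  · exact S.ud _ _ h
  · exact S.d1 _ _ _ _ h

theorem stb_St (z : α) : Stb M U (St z) := by
  intro u w u' w' h h' _ _
  unfold St at *
  grind

theorem stb_Si (p q : α) : Stb M U (Si p q) := by
  intro u w u' w' h h' _ _
  unfold Si at *
  grind

theorem stb_Tr (S : Sys M U) (p q r : α) : Stb M U (Tr p q r) := by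
  intro u w u' w' h h' he he'
  have h1 := he.ne S
  have h2 := he'.ne S
  unfold Tr at *
  grind

theorem Ctx.noBC {K : ℕ} (C : Ctx M U K) {a b c d x : α} (h : Cyc M a b c d) (hx : Out a b c d x)
    (hM : M a c b x) (hno1 : ∀ y, Out a b c d y → ¬ M b d a y)
    (hno2 : ∀ y, Out a b c d y → ¬ M b d c y) : False := by
  have S := C.sys
  have h0 := S.dist h.1
  have hba : ∃ p q, M b a p q := ⟨_, _, S.s1 _ _ _ _ h.1⟩
  have hbc : ∃ p q, M b c p q := ⟨_, _, h.2⟩
  have hbx : ∃ p q, M b x p q := ⟨_, _, S.s2 _ _ _ _ hM⟩
  by_cases hno3 : ∀ y p q, Out a b c d y → y ≠ x → ¬ M b y p q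
  · have key := fun u v he => S.bc2 (u := u) (v := v) h hx hM hno1 hno2 hno3 he
    by_cases hbd : ∃ u w, M b d u w
    · have hc := C.cnt b [a, c, d, x] (by grind) (by
        intro z hz
        simp only [List.mem_cons, List.not_mem_nil, or_false] at hz
        rcases hz with rfl | rfl | rfl | rfl
        · exact hba
        · exact hbc
        · exact hbd
        · exact hbx)
      obtain ⟨u, w, hbd⟩ := hbd
      simp only [List.length_cons, List.length_nil] at hc
      refine C.cov [St b, Tr a c d, Si u w] (by simp; omega) ?_ ?_
      · intro A hA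
        simp only [List.mem_cons, List.not_mem_nil, or_false] at hA
        rcases hA with rfl | rfl | rfl
        · exact stb_St _
        · exact stb_Tr S _ _ _
        · exact stb_Si _ _
      · intro u1 w1 he
        simp only [List.mem_cons, List.not_mem_nil, or_false, exists_eq_or_imp, exists_eq_left]
        by_cases h1 : St b u1 w1
        · exact Or.inl h1
        · by_cases h2 : Tr a c d u1 w1
          · exact Or.inr (Or.inl h2)
          · right; right
            unfold St at h1
            unfold Tr at h2
            have := key u1 w1 he (fun e => h1 (Or.inl e)) (fun e => h1 (Or.inr e)) h2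
            have := S.fn _ _ _ _ _ _ this hbd
            exact this
    · have hc := C.cnt b [a, c, x] (by grind) (by
        intro z hz
        simp only [List.mem_cons, List.not_mem_nil, or_false] at hz
        rcases hz with rfl | rfl | rfl
        · exact hba
        · exact hbc
        · exact hbx)
      simp only [List.length_cons, List.length_nil] at hc
      refine C.cov [St b, Tr a c d] (by simp; omega) ?_ ?_
      · intro A hA
        simp only [List.mem_cons, List.not_mem_nil, or_false] at hA
        rcases hA with rfl | rfl
        · exact stb_St _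
        · exact stb_Tr S _ _ _
      · intro u1 w1 he
        simp only [List.mem_cons, List.not_mem_nil, or_false, exists_eq_or_imp, exists_eq_left]
        by_cases h1 : St b u1 w1
        · exact Or.inl h1
        · by_cases h2 : Tr a c d u1 w1
          · exact Or.inr h2
          · unfold St at h1
            unfold Tr at h2
            have := key u1 w1 he (fun e => h1 (Or.inl e)) (fun e => h1 (Or.inr e)) h2
            exact absurd ⟨_, _, this⟩ hbd
  · push Not at hno3
    obtain ⟨y, p, q, hy, hyx, hby⟩ := hno3
    have hby' : ∃ p q, M b y p q := ⟨_, _, hby⟩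
    have key := fun u v he => S.bc1 (u := u) (v := v) h hx hM hno1 hno2 he
    by_cases hbd : ∃ u w, M b d u w
    · have hc := C.cnt b [a, c, d, x, y] (by grind) (by
        intro z hz
        simp only [List.mem_cons, List.not_mem_nil, or_false] at hz
        rcases hz with rfl | rfl | rfl | rfl | rfl
        · exact hba
        · exact hbc
        · exact hbd
        · exact hbx
        · exact hby')
      obtain ⟨u, w, hbd⟩ := hbd
      simp only [List.length_cons, List.length_nil] at hc
      refine C.cov [St a, St b, St c, Si u w] (by simp; omega) ?_ ?_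
      · intro A hA
        simp only [List.mem_cons, List.not_mem_nil, or_false] at hA
        rcases hA with rfl | rfl | rfl | rfl
        · exact stb_St _
        · exact stb_St _
        · exact stb_St _
        · exact stb_Si _ _
      · intro u1 w1 he
        simp only [List.mem_cons, List.not_mem_nil, or_false, exists_eq_or_imp, exists_eq_left]
        unfold St Si
        have k1 := key u1 w1 he
        have k2 := fun hh => S.fn b d u1 w1 u w hh hbd
        grind
    · have hc := C.cnt b [a, c, x, y] (by grind) (by
        intro z hz
        simp only [List.mem_cons, List.not_mem_nil, or_false] at hz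
        rcases hz with rfl | rfl | rfl | rfl
        · exact hba
        · exact hbc
        · exact hbx
        · exact hby')
      simp only [List.length_cons, List.length_nil] at hc
      refine C.cov [St a, St b, St c] (by simp; omega) ?_ ?_
      · intro A hA
        simp only [List.mem_cons, List.not_mem_nil, or_false] at hA
        rcases hA with rfl | rfl | rfl
        · exact stb_St _
        · exact stb_St _
        · exact stb_St _
      · intro u1 w1 he
        simp only [List.mem_cons, List.not_mem_nil, or_false, exists_eq_or_imp, exists_eq_left]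
        unfold St
        have k1 := key u1 w1 he
        have k2 : ¬ M b d u1 w1 := fun hh => hbd ⟨_, _, hh⟩
        grind

theorem Ctx.noD {K : ℕ} (C : Ctx M U K) {a b c d x y : α} (h : Cyc M a b c d)
    (hx : Out a b c d x) (hM : M a c b x) (hy : Out a b c d y) (hN : M b d a y) : False := by
  have S := C.sys
  have h0 := S.dist h.1
  have hba : ∃ p q, M b a p q := ⟨_, _, S.s1 _ _ _ _ h.1⟩
  have hbc : ∃ p q, M b c p q := ⟨_, _, h.2⟩
  have hbx : ∃ p q, M b x p q := ⟨_, _, S.s2 _ _ _ _ hM⟩
  have hbd : ∃ p q, M b d p q := ⟨_, _, hN⟩
  have hab : ∃ p q, M a b p q := ⟨_, _, h.1⟩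
  have hac : ∃ p q, M a c p q := ⟨_, _, hM⟩
  have had : ∃ p q, M a d p q := ⟨_, _, S.s2 _ _ _ _ h.2⟩
  have hay : ∃ p q, M a y p q := ⟨_, _, S.s2 _ _ _ _ hN⟩
  by_cases hg : ∃ u w, El M U u w ∧ Out a b c d u ∧ Out a b c d w
  · have main : ∀ u w, Out a b c d u → Out a b c d w → ((M a x u w ∧ M a u b y) ∨
        (M b y u w ∧ M a x b u)) → False := by
      intro u w hu hw he
      have key := fun u' w' hu' hw' he' => S.d1' (u := u') (v := w') h hx hM hy hN hu' hw' he'
      have hK : 6 ≤ K := by
        rcases he with he | he
        · have h1 := S.dist he.1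
          have h2 := S.dist he.2
          have hxy : x ≠ y := by
            rintro rfl
            have := S.uniq he.1 (S.s2 _ _ _ _ hN)
            grind
          have hc := C.cnt a [b, c, d, x, y, u] (by grind) (by
            intro z hz
            simp only [List.mem_cons, List.not_mem_nil, or_false] at hz
            rcases hz with rfl | rfl | rfl | rfl | rfl | rfl
            · exact hab
            · exact hac
            · exact had
            · exact ⟨_, _, he.1⟩
            · exact hay
            · exact ⟨_, _, he.2⟩)
          simpa using hc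
        · have h1 := S.dist he.1
          have h2 := S.dist he.2
          have hxy : x ≠ y := by
            rintro rfl
            have := S.uniq he.1 (S.s2 _ _ _ _ hM)
            grind
          have hc := C.cnt b [a, c, d, x, y, u] (by grind) (by
            intro z hz
            simp only [List.mem_cons, List.not_mem_nil, or_false] at hz
            rcases hz with rfl | rfl | rfl | rfl | rfl | rfl
            · exact hba
            · exact hbc
            · exact hbd
            · exact hbx
            · exact ⟨_, _, he.1⟩
            · exact ⟨_, _, S.s2 _ _ _ _ he.2⟩)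
          simpa using hc
      refine C.cov [St a, St b, St c, St d, Si u w] (by simp; omega) ?_ ?_
      · intro A hA
        simp only [List.mem_cons, List.not_mem_nil, or_false] at hA
        rcases hA with rfl | rfl | rfl | rfl | rfl
        · exact stb_St _
        · exact stb_St _
        · exact stb_St _
        · exact stb_St _
        · exact stb_Si _ _
      · intro u1 w1 he1
        simp only [List.mem_cons, List.not_mem_nil, or_false, exists_eq_or_imp, exists_eq_left]
        by_cases h1 : Out a b c d u1 ∧ Out a b c d w1
        · right; right; right; right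
          have k1 := key u1 w1 h1.1 h1.2 he1
          unfold Si
          have sy := S.sy
          have fn := S.fn
          clear C S key
          grind (ematch := 8) (instances := 3000)
        · unfold St
          grind
    obtain ⟨u, w, he, hu, hw⟩ := hg
    rcases S.d1' h hx hM hy hN hu hw he with ⟨h1, h2 | h2⟩ | ⟨h1, h2 | h2⟩
    · exact main u w hu hw (Or.inl ⟨h1, h2⟩)
    · exact main w u hw hu (Or.inl ⟨S.s3 h1, h2⟩)
    · exact main u w hu hw (Or.inr ⟨h1, h2⟩)
    · exact main w u hw hu (Or.inr ⟨S.s3 h1, h2⟩)
  · have hcov4 : 5 ≤ K → False := by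
      intro hK
      refine C.cov [St a, St b, St c, St d] (by simp; omega) ?_ ?_
      · intro A hA
        simp only [List.mem_cons, List.not_mem_nil, or_false] at hA
        rcases hA with rfl | rfl | rfl | rfl
        · exact stb_St _
        · exact stb_St _
        · exact stb_St _
        · exact stb_St _
      · intro u1 w1 he1
        simp only [List.mem_cons, List.not_mem_nil, or_false, exists_eq_or_imp, exists_eq_left]
        have : ¬ (Out a b c d u1 ∧ Out a b c d w1) := fun hh => hg ⟨u1, w1, he1, hh⟩
        unfold St
        grind
    have hc3 : ∀ z, Out a b c d z → ¬ El M U c z := by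
      intro z hz he
      obtain ⟨rfl, w, hw, hM'⟩ := S.d3' h hx hM hy hN hz he
      have h1 := S.dist hM'
      have hc := C.cnt b [a, c, d, z, w] (by grind) (by
        intro z' hz'
        simp only [List.mem_cons, List.not_mem_nil, or_false] at hz'
        rcases hz' with rfl | rfl | rfl | rfl | rfl
        · exact hba
        · exact hbc
        · exact hbd
        · exact hbx
        · exact ⟨_, _, hM'⟩)
      exact hcov4 (by simpa using hc)
    have hd4 : ∀ z, Out a b c d z → ¬ El M U d z := by
      intro z hz he
      obtain ⟨rfl, w, hw, hM'⟩ := S.d4' h hx hM hy hN hz he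
      have h1 := S.dist hM'
      have hc := C.cnt a [b, c, d, z, w] (by grind) (by
        intro z' hz'
        simp only [List.mem_cons, List.not_mem_nil, or_false] at hz'
        rcases hz' with rfl | rfl | rfl | rfl | rfl
        · exact hab
        · exact hac
        · exact had
        · exact hay
        · exact ⟨_, _, hM'⟩)
      exact hcov4 (by simpa using hc)
    have hc := C.cnt b [a, c, d, x] (by grind) (by
      intro z' hz'
      simp only [List.mem_cons, List.not_mem_nil, or_false] at hz'
      rcases hz' with rfl | rfl | rfl | rfl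
      · exact hba
      · exact hbc
      · exact hbd
      · exact hbx)
    simp only [List.length_cons, List.length_nil] at hc
    refine C.cov [St a, St b, Si c d] (by simp; omega) ?_ ?_
    · intro A hA
      simp only [List.mem_cons, List.not_mem_nil, or_false] at hA
      rcases hA with rfl | rfl | rfl
      · exact stb_St _
      · exact stb_St _
      · exact stb_Si _ _
    · intro u1 w1 he1
      simp only [List.mem_cons, List.not_mem_nil, or_false, exists_eq_or_imp, exists_eq_left]
      have k0 : ¬ (Out a b c d u1 ∧ Out a b c d w1) := fun hh => hg ⟨u1, w1, he1, hh⟩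
      have k1 := he1.ne S
      have k2 := he1.symm S
      have k3 : ∀ z, z = a ∨ z = b ∨ z = c ∨ z = d ∨ Out a b c d z := by intro z; grind
      unfold St Si
      rcases k3 u1 with rfl | rfl | rfl | rfl | hu1 <;> rcases k3 w1 with rfl | rfl | rfl | rfl | hw1
      all_goals grind

/-- there is no conflict -/
theorem Ctx.noCyc {K : ℕ} (C : Ctx M U K) (hK : 3 ≤ K) {a b c d : α} (h : Cyc M a b c d) :
    False := by
  have S := C.sys
  -- the standard position is impossible
  have std : ∀ a b c d x, Cyc M a b c d → Out a b c d x → ¬ M a c b x := by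
    intro a b c d x h hx hM
    by_cases h1 : ∃ y, Out a b c d y ∧ M b d a y
    · obtain ⟨y, hy, hN⟩ := h1
      exact C.noD h hx hM hy hN
    · by_cases h2 : ∃ y, Out a b c d y ∧ M b d c y
      · obtain ⟨y, hy, hN⟩ := h2
        exact C.noD (S.refl h) hx.refl (S.s1 _ _ _ _ hM) hy.refl hN
      · push Not at h1 h2
        exact C.noBC h hx hM h1 h2
  have one : ∀ a b c d x, Cyc M a b c d → Out a b c d x → ¬ El M U a x := by
    intro a b c d x h hx he
    rcases he with he | ⟨p, q, he⟩
    · exact (S.tab h).u1 x hx he
    · have hr : Cyc M b a d c := ⟨S.s3 (S.s1 _ _ _ _ h.1), S.s2 _ _ _ _ h.2⟩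
      rcases S.one h hx he with ⟨y, hy, hN⟩ | ⟨y, hy, hN⟩ | ⟨y, hy, hN⟩ | ⟨y, hy, hN⟩
      · exact std a b c d y h hy hN
      · exact std a d c b y (by
          have := S.refl (S.rot h)
          exact S.rot (S.rot (S.rot this)) ) (by grind) hN
      · exact std b a d c y hr (by grind) hN
      · exact std b c d a y (S.rot h) hy.rot hN
  have h0 := S.dist h.1
  let A : α → α → Prop := fun u w => (u = a ∨ u = b ∨ u = c ∨ u = d) ∧ (w = a ∨ w = b ∨ w = c ∨ w = d)
  have k3 : ∀ z, z = a ∨ z = b ∨ z = c ∨ z = d ∨ Out a b c d z := by intro z; grind
  have k4 : ∀ u w, El M U u w → A u w ∨ (Out a b c d u ∧ Out a b c d w) := by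
    intro u w he
    have h1 := fun x hx => one a b c d x h hx
    have h2 := fun x hx => one b c d a x (S.rot h) hx
    have h3 := fun x hx => one c d a b x (S.rot (S.rot h)) hx
    have h4 := fun x hx => one d a b c x (S.rot (S.rot (S.rot h))) hx
    have he' := he.symm S
    have hu := k3 u
    have hw := k3 w
    show ((u = a ∨ u = b ∨ u = c ∨ u = d) ∧ (w = a ∨ w = b ∨ w = c ∨ w = d)) ∨ _
    grind
  have hall := C.con A (by
    intro u w u' w' he hA he' hA'
    have := (k4 u' w' he').resolve_left hA'
    have hA2 : (u = a ∨ u = b ∨ u = c ∨ u = d) ∧ (w = a ∨ w = b ∨ w = c ∨ w = d) := hA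
    grind) ⟨a, b, Or.inr ⟨_, _, h.1⟩, Or.inl rfl, Or.inr (Or.inl rfl)⟩
  refine C.cov [St a, Tr b c d] (by simp; omega) ?_ ?_
  · intro B hB
    simp only [List.mem_cons, List.not_mem_nil, or_false] at hB
    rcases hB with rfl | rfl
    · exact stb_St _
    · exact stb_Tr S _ _ _
  · intro u w he
    simp only [List.mem_cons, List.not_mem_nil, or_false, exists_eq_or_imp, exists_eq_left]
    have : (u = a ∨ u = b ∨ u = c ∨ u = d) ∧ (w = a ∨ w = b ∨ w = c ∨ w = d) := hall u w he
    unfold St Tr
    grind

end Pool.Agent.CoL18
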