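import Pool.Agent.CoL18.Inst

/-!
# CoL18: a matching with the least number of conflicts has no conflict
-/

set_option autoImplicit false
set_option linter.unusedVariables false

namespace Pool.Agent.CoL18

open Finset
open scoped Classical

variable {V : Type} {G : SimpleGraph V} {k : ℕ} {α : Type*} {s : V → Finset α}

theorem el_of {K : ℕ} (E : Edge G s) (p : Fin K × Bool → V) {v : V} {u w : α} (h : s v = {u, w}) :
    El (MM s p) (UU s p) u w := by
  by_cases hv : ∃ q, p q = v
  · obtain ⟨⟨i, t⟩, rfl⟩ := hv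
    obtain ⟨c, d, -, hcd⟩ := card_eq_two.1 (E.two (p (i, !t)))
    exact Or.inr ⟨c, d, i, t, h, hcd⟩
  · push Not at hv
    exact Or.inl ⟨ne_of_card E h, v, h, hv⟩

theorem of_el {K : ℕ} {p : Fin K × Bool → V} {u w : α} (h : El (MM s p) (UU s p) u w) :
    ∃ v, s v = {u, w} := by
  rcases h with ⟨-, v, h, -⟩ | ⟨c, d, i, t, h, -⟩
  · exact ⟨v, h⟩
  · exact ⟨_, h⟩

theorem ctx_of (E : Edge G s) (hk : ¬ G.Colorable k) (hconn : Gᶜ.Preconnected)
    {p : Fin (k + 1) × Bool → V} (hp : Mt G p)
    (hmin : ∀ p' : Fin (k + 1) × Bool → V, Mt G p' → nC G p ≤ nC G p') :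
    Ctx (MM s p) (UU s p) (k + 1) where
  sys := sys_of E hp hmin
  cnt := by
    intro z l hl h
    choose! c d i t h1 h2 using h
    have hinj : Set.InjOn i (l.toFinset : Set α) := by
      intro b hb b' hb' he
      rw [mem_coe, List.mem_toFinset] at hb hb'
      have e1 := h1 b hb
      have e2 := h1 b' hb'
      rw [← he] at e2
      by_cases ht : t b = t b'
      · rw [ht, e2, pair_eq] at e1
        grind
      · have ht' : t b' = !(t b) := by
          cases h3 : t b <;> cases h4 : t b' <;> simp_all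
        have := E.disj (hp.adj (i b) (t b))
        rw [← ht', e1, e2, dis] at this
        grind
    have := Finset.card_le_card_of_injOn (s := l.toFinset) (t := univ) i (fun _ _ => mem_coe.2 (mem_univ _)) hinj
    rwa [List.toFinset_card_of_nodup hl, card_univ, Fintype.card_fin] at this
  cov := by
    intro L hL hst hcov
    have hv : ∀ v : V, ∃ u w, s v = {u, w} := by
      intro v
      obtain ⟨c, d, -, hcd⟩ := card_eq_two.1 (E.two v)
      exact ⟨c, d, hcd⟩
    choose u w huw using hv
    have hidx : ∀ v, ∃ i : Fin L.length, L.get i (u v) (w v) := by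
      intro v
      obtain ⟨A, hA, hA'⟩ := hcov _ _ (el_of E p (huw v))
      obtain ⟨i, rfl⟩ := List.mem_iff_get.1 hA
      exact ⟨i, hA'⟩
    choose φ hφ using hidx
    have hcol : G.Colorable L.length := by
      refine ⟨SimpleGraph.Coloring.mk φ ?_⟩
      intro x y hxy he
      have h1 := hφ x
      have h2 := hφ y
      rw [← he] at h2
      have h3 := hst _ (List.get_mem L (φ x)) _ _ _ _ h1 h2 (el_of E p (huw x)) (el_of E p (huw y))
      have h4 := E.disj hxy
      rw [huw x, huw y, dis] at h4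
      grind
    exact hk (hcol.mono (by omega))
  con := by
    intro A hA hex u w he
    by_contra hno
    obtain ⟨u0, w0, he0, hA0⟩ := hex
    obtain ⟨v1, hv1⟩ := of_el he
    obtain ⟨v0, hv0⟩ := of_el he0
    let P : V → Prop := fun v => ∃ u w, s v = {u, w} ∧ A u w
    have hstep : ∀ x y, Gᶜ.Adj x y → P x → P y := by
      rintro x y hxy ⟨a, b, hab, hA1⟩
      by_contra hPy
      obtain ⟨c, d, -, hcd⟩ := card_eq_two.1 (E.two y)
      have hA2 : ¬ A c d := fun h => hPy ⟨c, d, hcd, h⟩
      have := hA a b c d (el_of E p hab) hA1 (el_of E p hcd) hA2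
      rw [SimpleGraph.compl_adj] at hxy
      refine hxy.2 (adj_of E hxy.1 ?_)
      rw [hab, hcd, dis]
      exact this
    have hreach : ∀ x y, Gᶜ.Reachable x y → P x → P y := by
      rintro x y ⟨q⟩ hx
      induction q with
      | nil => exact hx
      | cons h _ ih => exact ih (hstep _ _ h hx)
    obtain ⟨a, b, hab, hA1⟩ := hreach v0 v1 (hconn v0 v1) ⟨u0, w0, hv0, hA0⟩
    have h1 := hA a b u w (el_of E p hab) hA1 he hno
    rw [hv1, pair_eq] at hab
    grind

/-- if there is a matching with `k + 1` pairs then there is a complete minor -/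
theorem minor_of_matching (E : Edge G s) (hk : ¬ G.Colorable k) (hk2 : 2 ≤ k)
    (hconn : Gᶜ.Preconnected) (h : ∃ p : Fin (k + 1) × Bool → V, Mt G p) :
    Pool.Agent.CA31.HasMinor G (k + 1) := by
  obtain ⟨p, hp, hmin⟩ := exists_min h
  refine minor_of_noconf hp ?_
  intro i j hij
  have C := ctx_of E hk hconn hp hmin
  have S := C.sys
  obtain ⟨a, b, hab, h1⟩ := card_eq_two.1 (E.two (p (i, false)))
  obtain ⟨x, y, hxy, h2⟩ := card_eq_two.1 (E.two (p (i, true)))
  have hM : MM s p a b x y := ⟨i, false, h1, h2⟩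
  have hcf : MM s p a x b y ∨ MM s p a y b x :=
    blocker E hp hp (i := i) (m := j) (b := false) h1 h2 (fun _ => rfl) hij
  rcases hcf with h3 | h3
  · exact C.noCyc (by omega) (a := a) (b := b) (c := y) (d := x) ⟨S.s3 hM, S.s2 _ _ _ _ h3⟩
  · exact C.noCyc (by omega) (a := a) (b := b) (c := x) (d := y) ⟨hM, S.s2 _ _ _ _ h3⟩

end Pool.Agent.CoL18
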