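import Pool.Agent.CoL18.Mat

/-!
# CoL18: the rules hold for a matching with the least number of conflicts
-/

set_option autoImplicit false
set_option linter.unusedVariables false

namespace Pool.Agent.CoL18

open Finset
open scoped Classical

variable {V : Type} {G : SimpleGraph V} {K : ℕ} {α : Type*} {s : V → Finset α}

theorem pair_eq {a b c d : α} :
    ({a, b} : Finset α) = {c, d} ↔ (a = c ∧ b = d) ∨ (a = d ∧ b = c) := by
  rw [← Finset.coe_inj]
  push_cast
  exact Set.pair_eq_pair_iff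

theorem ndis {a b c d : α} :
    ¬ Disjoint ({a, b} : Finset α) {c, d} ↔ a = c ∨ a = d ∨ b = c ∨ b = d := by
  simp only [disjoint_insert_left, disjoint_singleton_left, mem_insert, mem_singleton]
  tauto

theorem dis {a b c d : α} :
    Disjoint ({a, b} : Finset α) {c, d} ↔ a ≠ c ∧ a ≠ d ∧ b ≠ c ∧ b ≠ d := by
  simp only [disjoint_insert_left, disjoint_singleton_left, mem_insert, mem_singleton]
  tauto

theorem cross {a b x y : α} {g g' : Finset α} (hg : g.card = 2) (hg' : g'.card = 2)
    (hd : Disjoint g g') (hab : Disjoint ({a, b} : Finset α) {x, y})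
    (h1 : ¬ Disjoint ({a, b} : Finset α) g) (h2 : ¬ Disjoint ({a, b} : Finset α) g')
    (h3 : ¬ Disjoint ({x, y} : Finset α) g) (h4 : ¬ Disjoint ({x, y} : Finset α) g') :
    (g = {a, x} ∧ g' = {b, y}) ∨ (g = {b, y} ∧ g' = {a, x}) ∨
    (g = {a, y} ∧ g' = {b, x}) ∨ (g = {b, x} ∧ g' = {a, y}) := by
  obtain ⟨g1, g2, hg12, rfl⟩ := card_eq_two.1 hg
  obtain ⟨g3, g4, hg34, rfl⟩ := card_eq_two.1 hg'
  rw [ndis] at h1 h2 h3 h4
  rw [dis] at hd hab
  simp only [pair_eq]
  clear hg hg'
  rcases h1 with rfl | rfl | rfl | rfl <;> rcases h2 with rfl | rfl | rfl | rfl <;>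
    grind (splits := 20)

/-- the pairs of the matching -/
def MM (s : V → Finset α) (p : Fin K × Bool → V) (a b c d : α) : Prop :=
  ∃ i t, s (p (i, t)) = {a, b} ∧ s (p (i, !t)) = {c, d}

/-- the unmatched elements -/
def UU (s : V → Finset α) (p : Fin K × Bool → V) (a b : α) : Prop :=
  a ≠ b ∧ ∃ v, s v = {a, b} ∧ ∀ q, p q ≠ v

theorem ne_of_card {a b : α} {v : V} (E : Edge G s) (h : s v = {a, b}) : a ≠ b := by
  rintro rfl
  have := E.two v
  rw [h] at this
  simp at this

theorem Edge.disj (E : Edge G s) {u v : V} (h : G.Adj u v) : Disjoint (s u) (s v) :=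
  (E.adj u v h.ne).1 h

/-- a conflict of a pair of the new matching with an old pair -/
theorem blocker (E : Edge G s) {p p' : Fin K × Bool → V} (hp : Mt G p) (hp' : Mt G p')
    {i m : Fin K} {b : Bool} {a c x y : α} (h1 : s (p' (i, b)) = {a, c})
    (h2 : s (p' (i, !b)) = {x, y}) (hm : ∀ t, p' (m, t) = p (m, t)) (hc : Cf G p' i m) :
    MM s p a x c y ∨ MM s p a y c x := by
  have hd : Disjoint (s (p (m, false))) (s (p (m, true))) := E.disj (hp.adj m false)
  have hd' : Disjoint (s (p' (i, b))) (s (p' (i, !b))) := E.disj (hp'.adj i b)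
  have key : ∀ t t', ¬ Disjoint (s (p' (i, t))) (s (p (m, t'))) := by
    intro t t' hdis
    have hne : p' (i, t) ≠ p' (m, t') := by
      intro he
      have := hp'.inj he
      exact hc.1 (congrArg Prod.fst this)
    refine hc.2 t t' ((E.adj _ _ hne).2 ?_)
    rw [hm t']
    exact hdis
  rw [h1, h2] at hd'
  have k1 := key b false
  have k2 := key b true
  have k3 := key (!b) false
  have k4 := key (!b) true
  rw [h1] at k1 k2
  rw [h2] at k3 k4
  rcases cross (E.two _) (E.two _) hd hd' k1 k2 k3 k4 with h | h | h | h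
  · exact Or.inl ⟨m, false, h.1, h.2⟩
  · exact Or.inl ⟨m, true, h.2, h.1⟩
  · exact Or.inr ⟨m, false, h.1, h.2⟩
  · exact Or.inr ⟨m, true, h.2, h.1⟩

theorem adj_of (E : Edge G s) {u v : V} (h : u ≠ v) (hd : Disjoint (s u) (s v)) : G.Adj u v :=
  (E.adj u v h).2 hd

theorem conf_of (E : Edge G s) {p : Fin K × Bool → V} (hp : Mt G p) {i q : Fin K} {t r : Bool}
    {a b c d : α} (h1 : s (p (i, t)) = {a, b}) (h2 : s (p (i, !t)) = {c, d})
    (h3 : s (p (q, r)) = {b, c}) (h4 : s (p (q, !r)) = {a, d})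
    (hd : a ≠ c ∧ a ≠ d ∧ b ≠ c ∧ b ≠ d) : Cf G p i q := by
  have hcases : ∀ x y : Bool, x = y ∨ x = !y := by decide
  refine ⟨?_, ?_⟩
  · rintro rfl
    rcases hcases t r with ht | ht
    · subst ht
      rw [h1, pair_eq] at h3
      grind
    · subst ht
      rw [h1, pair_eq] at h4
      grind
  · intro x y hadj
    have := E.disj hadj
    rcases hcases x t with rfl | rfl <;> rcases hcases y r with rfl | rfl
    · rw [h1, h3, dis] at this
      grind
    · rw [h1, h4, dis] at this
      grind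
    · rw [h2, h3, dis] at this
      grind
    · rw [h2, h4, dis] at this
      grind

/-- re-pairing two pairs -/
theorem repair {p : Fin K × Bool → V} (hp : Mt G p) {i j : Fin K} (hij : i ≠ j) (t t' : Bool)
    (h1 : G.Adj (p (i, t)) (p (j, t'))) (h2 : G.Adj (p (i, !t)) (p (j, !t'))) :
    ∃ p' : Fin K × Bool → V, Mt G p' ∧ p' (i, t) = p (i, t) ∧ p' (i, !t) = p (j, t') ∧
      p' (j, t') = p (i, !t) ∧ p' (j, !t') = p (j, !t') ∧
      ∀ l, l ≠ i → l ≠ j → ∀ b, p' (l, b) = p (l, b) := by
  have hcases : ∀ x y : Bool, x = y ∨ x = !y := by decide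
  have g1 : p (Equiv.swap (i, !t) (j, t') (i, t)) = p (i, t) := by
    rw [Equiv.swap_apply_of_ne_of_ne]
    · simp
    · simp [hij]
  have g2 : p (Equiv.swap (i, !t) (j, t') (i, !t)) = p (j, t') := by
    rw [Equiv.swap_apply_left]
  have g3 : p (Equiv.swap (i, !t) (j, t') (j, t')) = p (i, !t) := by
    rw [Equiv.swap_apply_right]
  have g4 : p (Equiv.swap (i, !t) (j, t') (j, !t')) = p (j, !t') := by
    rw [Equiv.swap_apply_of_ne_of_ne]
    · simp [hij.symm]
    · simp
  have g5 : ∀ l, l ≠ i → l ≠ j → ∀ b, p (Equiv.swap (i, !t) (j, t') (l, b)) = p (l, b) := by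
    intro l hl1 hl2 b
    rw [Equiv.swap_apply_of_ne_of_ne]
    · simp [hl1]
    · simp [hl2]
  refine ⟨fun z => p (Equiv.swap (i, !t) (j, t') z), ⟨?_, ?_⟩, g1, g2, g3, g4, g5⟩
  · exact hp.inj.comp (Equiv.injective _)
  · intro l b
    show G.Adj (p (Equiv.swap (i, !t) (j, t') (l, b))) (p (Equiv.swap (i, !t) (j, t') (l, !b)))
    by_cases hl1 : l = i
    · subst hl1
      rcases hcases b t with rfl | rfl
      · rw [g1, g2]; exact h1
      · rw [Bool.not_not, g1, g2]; exact h1.symm
    · by_cases hl2 : l = j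
      · subst hl2
        rcases hcases b t' with rfl | rfl
        · rw [g3, g4]; exact h2
        · rw [Bool.not_not, g3, g4]; exact h2.symm
      · rw [g5 l hl1 hl2, g5 l hl1 hl2]
        exact hp.adj l b

/-- replacing an element of a pair by an unmatched one -/
theorem replace {p : Fin K × Bool → V} (hp : Mt G p) (i : Fin K) (t : Bool) {v : V}
    (hv : ∀ q, p q ≠ v) (h1 : G.Adj (p (i, t)) v) :
    ∃ p' : Fin K × Bool → V, Mt G p' ∧ p' (i, t) = p (i, t) ∧ p' (i, !t) = v ∧
      ∀ l, l ≠ i → ∀ b, p' (l, b) = p (l, b) := by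
  have hcases : ∀ x y : Bool, x = y ∨ x = !y := by decide
  have g1 : Function.update p (i, !t) v (i, t) = p (i, t) := by
    rw [Function.update_of_ne]
    simp
  have g2 : Function.update p (i, !t) v (i, !t) = v := Function.update_self _ _ _
  have g5 : ∀ l, l ≠ i → ∀ b, Function.update p (i, !t) v (l, b) = p (l, b) := by
    intro l hl b
    rw [Function.update_of_ne]
    simp [hl]
  refine ⟨Function.update p (i, !t) v, ⟨?_, ?_⟩, g1, g2, g5⟩
  · intro x y hxy
    by_cases hx : x = (i, !t) <;> by_cases hy : y = (i, !t)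
    · rw [hx, hy]
    · rw [hx, Function.update_self, Function.update_of_ne hy] at hxy
      exact absurd hxy.symm (hv _)
    · rw [hy, Function.update_self, Function.update_of_ne hx] at hxy
      exact absurd hxy (hv _)
    · rw [Function.update_of_ne hx, Function.update_of_ne hy] at hxy
      exact hp.inj hxy
  · intro l b
    by_cases hl1 : l = i
    · subst hl1
      rcases hcases b t with rfl | rfl
      · rw [g1, g2]; exact h1
      · rw [Bool.not_not, g1, g2]; exact h1.symm
    · rw [g5 l hl1, g5 l hl1]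
      exact hp.adj l b

theorem sys_of (E : Edge G s) {p : Fin K × Bool → V} (hp : Mt G p)
    (hmin : ∀ p' : Fin K × Bool → V, Mt G p' → nC G p ≤ nC G p') :
    Sys (MM s p) (UU s p) where
  s1 := by
    rintro a b c d ⟨i, t, h1, h2⟩
    exact ⟨i, t, by rw [h1, pair_comm], h2⟩
  s2 := by
    rintro a b c d ⟨i, t, h1, h2⟩
    exact ⟨i, !t, h2, by rw [Bool.not_not]; exact h1⟩
  d1 := by
    rintro a b c d ⟨i, t, h1, h2⟩
    exact ne_of_card E h1
  d2 := by
    rintro a b c d ⟨i, t, h1, h2⟩
    have := E.disj (hp.adj i t)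
    rw [h1, h2, dis] at this
    exact this.1
  fn := by
    rintro a b c d c' d' ⟨i, t, h1, h2⟩ ⟨j, t', h3, h4⟩
    have := hp.inj (E.inj (h1.trans h3.symm))
    simp only [Prod.mk.injEq] at this
    obtain ⟨rfl, rfl⟩ := this
    rw [h2] at h4
    exact pair_eq.1 h4
  us := by
    rintro a b ⟨h1, v, h2, h3⟩
    exact ⟨h1.symm, v, by rw [h2, pair_comm], h3⟩
  ud := by
    rintro a b ⟨h1, v, h2, h3⟩
    exact h1
  um := by
    rintro a b c d ⟨h1, v, h2, h3⟩ ⟨i, t, h4, h5⟩
    exact h3 _ (E.inj (h4.trans h2.symm))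
  r1 := by
    rintro a b c d x y z w ⟨i, t, h1, h2⟩ ⟨q, r, h3, h4⟩ ⟨j, t', h5, h6⟩ hn1 hn2 e1 e2 e3 e4 e5 e6 e7 e8
    have hij : i ≠ j := by
      rintro rfl
      by_cases ht : t = t'
      · subst ht
        rw [h1, pair_eq] at h5
        grind
      · have : t' = !t := by cases t <;> cases t' <;> simp_all
        rw [this, h2, pair_eq] at h5
        grind
    have hd := E.disj (hp.adj i t)
    rw [h1, h2, dis] at hd
    have hc : Cf G p i q := conf_of E hp h1 h2 h3 h4 hd
    obtain ⟨p', hp', g1, g2, g3, g4, g5⟩ := repair hp hij t t'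
      (adj_of E (fun e => hij (congrArg Prod.fst (hp.inj e))) (by rw [h1, h5, dis]; exact ⟨e1, e2, e3, e4⟩))
      (adj_of E (fun e => hij (congrArg Prod.fst (hp.inj e))) (by rw [h2, h6, dis]; exact ⟨e5, e6, e7, e8⟩))
    obtain ⟨m, hm | hm⟩ := move (hmin p' hp') hc g5
    · have hmi : m ≠ i := hm.1.symm
      have hmj : m ≠ j := by
        rintro rfl
        refine hm.2 t t' ?_
        rw [g1, g3]
        exact hp.adj i t
      have := blocker E hp hp' (b := t) (a := a) (c := b) (x := x) (y := y)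
        (by rw [g1]; exact h1) (by rw [g2]; exact h5) (g5 m hmi hmj) hm
      rcases this with h | h
      · exact Or.inl h
      · exact Or.inr (Or.inl h)
    · have hmj : m ≠ j := hm.1.symm
      have hmi : m ≠ i := by
        rintro rfl
        refine hm.2 t' t ?_
        rw [g1, g3]
        exact (hp.adj m t).symm
      have := blocker E hp hp' (b := t') (a := c) (c := d) (x := z) (y := w)
        (by rw [g3]; exact h2) (by rw [g4]; exact h6) (g5 m hmi hmj) hm
      rcases this with h | h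
      · exact Or.inr (Or.inr (Or.inl h))
      · exact Or.inr (Or.inr (Or.inr h))
  r2 := by
    rintro a b c d x y ⟨i, t, h1, h2⟩ ⟨q, r, h3, h4⟩ ⟨hxy, v, h5, h6⟩ e1 e2 e3 e4
    have hd := E.disj (hp.adj i t)
    rw [h1, h2, dis] at hd
    have hc : Cf G p i q := conf_of E hp h1 h2 h3 h4 hd
    obtain ⟨p', hp', g1, g2, g5⟩ := replace hp i t h6
      (adj_of E (h6 _) (by rw [h1, h5, dis]; exact ⟨e1, e2, e3, e4⟩))
    obtain ⟨m, hm⟩ := move (j := i) (hmin p' hp') hc (fun l hl _ => g5 l hl)
    rw [or_self] at hm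
    exact blocker E hp hp' (b := t) (a := a) (c := b) (x := x) (y := y)
        (by rw [g1]; exact h1) (by rw [g2]; exact h5) (g5 m hm.1.symm) hm

end Pool.Agent.CoL18
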