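import Pool.Agent.CoL18.OddC
import Pool.Agent.CoL18.Ctxi

/-!
# CoL18: Hadwiger's conjecture for the graphs of disjointness of sets with at most two elements
-/

set_option autoImplicit false
set_option linter.unusedVariables false

namespace Pool.Agent.CoL18

open Finset Pool.Agent.HM Pool.Agent.CA31 Pool.Agent.CA72
open scoped Classical

section crit

variable {V : Type} [Fintype V] {G : SimpleGraph V} {k : ℕ} {α : Type} {s : V → Finset α}

/-- critical graphs with `2 k + 1` vertices -/
theorem odd_case (E : Edge G s) (hk : ¬ G.Colorable k)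
    (hcrit : ∀ v, (G.induce {w | w ≠ v}).Colorable k) (hconn : Gᶜ.Preconnected)
    (hn : Fintype.card V = 2 * k + 1) : HasMinor G (k + 1) := by
  refine Pool.Agent.T2F.full (G := G) (H := G) ⟨fun _ _ h => h, ?_, fun _ _ _ h _ _ _ => Or.inl h⟩ hk
  intro x y z w hxy hzw hxz hxw hyz hyw
  by_contra hno
  push Not at hno
  obtain ⟨n1, n2, n3, n4⟩ := hno
  have d1 : ∀ u v, u ≠ v → ¬ G.Adj u v → ¬ Disjoint (s u) (s v) := fun u v h1 h2 h3 =>
    h2 (adj_of E h1 h3)
  obtain ⟨a, b, hab, hx⟩ := card_eq_two.1 (E.two x)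
  obtain ⟨c, d, hcd, hy⟩ := card_eq_two.1 (E.two y)
  have hdxy := E.disj hxy
  rw [hx, hy] at hdxy
  have h3 : ∀ {v : α} {e1 e2 e3 : V}, e1 ≠ e2 → e1 ≠ e3 → e2 ≠ e3 → v ∈ s e1 → v ∈ s e2 →
      v ∈ s e3 → False := fun h12 h13 h23 hv1 hv2 hv3 =>
    no_three E hk hcrit hconn hn h12 h13 h23 hv1 hv2 hv3
  have hcr := cross (a := a) (b := b) (x := c) (y := d) (E.two z) (E.two w) (E.disj hzw) hdxy
    (by rw [← hx]; exact d1 _ _ hxz n1) (by rw [← hx]; exact d1 _ _ hxw n2)
    (by rw [← hy]; exact d1 _ _ hyz n3) (by rw [← hy]; exact d1 _ _ hyw n4)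
  have hdzw := E.disj hzw
  rw [dis] at hdxy
  have hstep : ∀ u v, Gᶜ.Adj u v → (u = x ∨ u = y ∨ u = z ∨ u = w) →
      (v = x ∨ v = y ∨ v = z ∨ v = w) := by
    intro u v huv hu
    rw [SimpleGraph.compl_adj] at huv
    have h4 := d1 u v huv.1 huv.2
    rw [Finset.not_disjoint_iff] at h4
    obtain ⟨p, hp1, hp2⟩ := h4
    by_contra hv
    push Not at hv
    -- p lies in two of x, y, z, w
    have key : ∀ e e' : V, e ≠ e' → p ∈ s e → p ∈ s e' → v ≠ e → v ≠ e' → False :=
      fun e e' he h5 h6 h7 h8 => h3 he h7.symm h8.symm h5 h6 hp2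
    have mx : p ∈ s x ↔ p = a ∨ p = b := by rw [hx]; simp
    have my : p ∈ s y ↔ p = c ∨ p = d := by rw [hy]; simp
    obtain ⟨v1, v2, v3, v4⟩ := hv
    rcases hcr with ⟨hz, hw⟩ | ⟨hz, hw⟩ | ⟨hz, hw⟩ | ⟨hz, hw⟩
    · have mz : p ∈ s z ↔ p = a ∨ p = c := by rw [hz]; simp
      have mw : p ∈ s w ↔ p = b ∨ p = d := by rw [hw]; simp
      have k1 := key x z hxz
      have k2 := key x w hxw
      have k3 := key y z hyz
      have k4 := key y w hyw
      grind
    · have mz : p ∈ s z ↔ p = b ∨ p = d := by rw [hz]; simp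
      have mw : p ∈ s w ↔ p = a ∨ p = c := by rw [hw]; simp
      have k1 := key x z hxz
      have k2 := key x w hxw
      have k3 := key y z hyz
      have k4 := key y w hyw
      grind
    · have mz : p ∈ s z ↔ p = a ∨ p = d := by rw [hz]; simp
      have mw : p ∈ s w ↔ p = b ∨ p = c := by rw [hw]; simp
      have k1 := key x z hxz
      have k2 := key x w hxw
      have k3 := key y z hyz
      have k4 := key y w hyw
      grind
    · have mz : p ∈ s z ↔ p = b ∨ p = c := by rw [hz]; simp
      have mw : p ∈ s w ↔ p = a ∨ p = d := by rw [hw]; simp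
      have k1 := key x z hxz
      have k2 := key x w hxw
      have k3 := key y z hyz
      have k4 := key y w hyw
      grind
  have hreach : ∀ u v, Gᶜ.Reachable u v → (u = x ∨ u = y ∨ u = z ∨ u = w) →
      (v = x ∨ v = y ∨ v = z ∨ v = w) := by
    rintro u v ⟨q⟩ hu
    induction q with
    | nil => exact hu
    | cons h _ ih => exact ih (hstep _ _ h hu)
  have huniv : (univ : Finset V) = {x, y, z, w} := by
    ext v
    simp only [mem_univ, true_iff, mem_insert, mem_singleton]
    exact hreach x v (hconn x v) (Or.inl rfl)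
  have h4 : ({x, y, z, w} : Finset V).card = 4 := by
    rw [card_insert_of_notMem, card_insert_of_notMem, card_insert_of_notMem, card_singleton]
    · simp [hzw.ne]
    · simp [hyz, hyw]
    · simp [hxy.ne, hxz, hxw]
  rw [← huniv, card_univ] at h4
  omega

omit [Fintype V] in
/-- small numbers of colours -/
theorem small_case (hk : ¬ G.Colorable k) (hk2 : k < 2) : HasMinor G (k + 1) := by
  have hne : Nonempty V := by
    by_contra h
    have : IsEmpty V := not_nonempty_iff.1 h
    exact hk ⟨SimpleGraph.Coloring.mk (fun v => (this.false v).elim)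
      (fun {u v} _ => (this.false u).elim)⟩
  obtain ⟨v⟩ := hne
  rcases Nat.lt_or_ge k 1 with h0 | h0
  · refine hasMinor_of_clq (K := {v}) ?_ (by rw [card_singleton]; omega)
    intro x hx y hy hxy
    rw [mem_singleton] at hx hy
    exact absurd (hx.trans hy.symm) hxy
  · have hk1 : k = 1 := by omega
    subst hk1
    by_cases he : ∃ x y, G.Adj x y
    · obtain ⟨x, y, hxy⟩ := he
      refine hasMinor_of_clq (K := {x, y}) ?_ (by rw [card_pair hxy.ne])
      intro a ha b hb hab
      rw [mem_insert, mem_singleton] at ha hb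
      rcases ha with rfl | rfl <;> rcases hb with rfl | rfl
      · exact absurd rfl hab
      · exact hxy
      · exact hxy.symm
      · exact absurd rfl hab
    · push Not at he
      exact absurd ⟨SimpleGraph.Coloring.mk (fun _ => (0 : Fin 1)) (fun {u v} h => absurd h (he u v))⟩ hk

/-- a critical graph of the class with connected complement -/
theorem crit_case (E : Edge G s) (hk : ¬ G.Colorable k)
    (hcrit : ∀ v, (G.induce {w | w ≠ v}).Colorable k) (hconn : Gᶜ.Preconnected) :
    HasMinor G (k + 1) := by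
  have hgal := Pool.Agent.T3.gallai_card hk hcrit hconn
  rcases Nat.lt_or_ge (2 * k + 1) (Fintype.card V) with h1 | h1
  · rcases match_or_clique hk hcrit (by omega) with h2 | ⟨Q, h2, h3⟩
    · rcases Nat.lt_or_ge k 2 with hk2 | hk2
      · exact small_case hk hk2
      · exact minor_of_matching E hk hk2 hconn h2
    · exact hasMinor_of_clq h2 h3
  · exact odd_case E hk hcrit hconn (by omega)

end crit

end Pool.Agent.CoL18
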