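import Pool.Agent.CoL18.Cnt
import Pool.Agent.T3F.Big

/-!
# CoL18: matchings with the least number of conflicts
-/

set_option autoImplicit false
set_option linter.unusedVariables false

namespace Pool.Agent.CoL18

open Finset

/-- `G` is the graph of disjoint pairs of a family of two-element sets -/
structure Edge {V α : Type*} (G : SimpleGraph V) (s : V → Finset α) : Prop where
  two : ∀ v, (s v).card = 2
  inj : Function.Injective s
  adj : ∀ u v, u ≠ v → (G.Adj u v ↔ Disjoint (s u) (s v))

variable {V : Type} {G : SimpleGraph V} {K : ℕ}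

/-- a matching with `K` pairs -/
structure Mt (G : SimpleGraph V) (p : Fin K × Bool → V) : Prop where
  inj : Function.Injective p
  adj : ∀ i b, G.Adj (p (i, b)) (p (i, !b))

/-- a conflict -/
def Cf (G : SimpleGraph V) (p : Fin K × Bool → V) (i j : Fin K) : Prop :=
  i ≠ j ∧ ∀ b c, ¬ G.Adj (p (i, b)) (p (j, c))

theorem Cf.symm {p : Fin K × Bool → V} {i j : Fin K} (h : Cf G p i j) : Cf G p j i :=
  ⟨h.1.symm, fun b c hb => h.2 c b hb.symm⟩

open Classical in
/-- the number of conflicts -/
noncomputable def nC (G : SimpleGraph V) (p : Fin K × Bool → V) : ℕ :=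
  (univ.filter (fun q : Fin K × Fin K => Cf G p q.1 q.2)).card

/-- changing two pairs one of which is in a conflict creates a conflict -/
theorem move {p p' : Fin K × Bool → V} (hmin : nC G p ≤ nC G p') {i q j : Fin K}
    (hc : Cf G p i q) (hsame : ∀ l, l ≠ i → l ≠ j → ∀ b, p' (l, b) = p (l, b)) :
    ∃ m, Cf G p' i m ∨ Cf G p' j m := by
  classical
  by_contra hno
  push Not at hno
  refine absurd hmin (not_le.2 (Finset.card_lt_card ?_))
  rw [Finset.ssubset_iff_of_subset]
  · refine ⟨(i, q), by simpa using hc, ?_⟩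
    simp only [mem_filter, mem_univ, true_and]
    exact (hno q).1
  · rintro ⟨l, m⟩ hlm
    simp only [mem_filter, mem_univ, true_and] at hlm ⊢
    have h1 : l ≠ i := fun e => (hno m).1 (e ▸ hlm)
    have h2 : l ≠ j := fun e => (hno m).2 (e ▸ hlm)
    have h3 : m ≠ i := fun e => (hno l).1 (e ▸ hlm.symm)
    have h4 : m ≠ j := fun e => (hno l).2 (e ▸ hlm.symm)
    refine ⟨hlm.1, fun b c => ?_⟩
    have := hlm.2 b c
    rwa [hsame l h1 h2, hsame m h3 h4] at this

theorem exists_min (h : ∃ p : Fin K × Bool → V, Mt G p) :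
    ∃ p : Fin K × Bool → V, Mt G p ∧ ∀ p' : Fin K × Bool → V, Mt G p' → nC G p ≤ nC G p' := by
  classical
  have hex : ∃ n, ∃ p : Fin K × Bool → V, Mt G p ∧ nC G p = n := by
    obtain ⟨p, hp⟩ := h
    exact ⟨_, p, hp, rfl⟩
  obtain ⟨p, hp, hn⟩ := Nat.find_spec hex
  exact ⟨p, hp, fun p' hp' => by rw [hn]; exact Nat.find_min' hex ⟨p', hp', rfl⟩⟩

/-- a matching without conflicts gives a complete minor -/
theorem minor_of_noconf {p : Fin K × Bool → V} (hp : Mt G p) (h : ∀ i j, ¬ Cf G p i j) :
    Pool.Agent.CA31.HasMinor G K := by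
  refine Pool.Agent.T3F.hasMinor_of_pairs (fun i => p (i, false)) (fun i => p (i, true))
    (fun i => hp.adj i false) ?_ ?_ ?_ ?_
  · intro i j hij he
    have := hp.inj he
    simp at this
    exact hij this
  · intro i j hij he
    have := hp.inj he
    simp at this
    exact hij this
  · intro i j he
    have := hp.inj he
    simp at this
  · intro i j hij
    by_contra hno
    push Not at hno
    obtain ⟨h1, h2, h3, h4⟩ := hno
    refine h i j ⟨hij, ?_⟩
    intro b c
    cases b <;> cases c
    · exact h1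
    · exact h2
    · exact h3
    · exact h4

end Pool.Agent.CoL18
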