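import Pool.Agent.CoL18.Inst
import Pool.Agent.CoL18.Ber
import Pool.Agent.HM.Gal
import Pool.Agent.T2F.Final

/-!
# CoL18: critical graphs with `2 k + 1` vertices
-/

set_option autoImplicit false
set_option linter.unusedVariables false

namespace Pool.Agent.CoL18

open Finset Pool.Agent.HM
open scoped Classical

variable {V : Type} [Fintype V] {G : SimpleGraph V} {k : ℕ} {α : Type} {s : V → Finset α}

omit [Fintype V] in
theorem even_of_invol (A : Finset V) (π : V → V) (h1 : ∀ w ∈ A, π w ∈ A) (h2 : ∀ w, π (π w) = w)
    (h3 : ∀ w ∈ A, π w ≠ w) : Even A.card := by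
  have h : ∑ x ∈ A, (1 : ZMod 2) = 0 :=
    Finset.sum_involution (fun a _ => π a) (fun _ _ => by decide) (fun a ha _ => h3 a ha)
      (fun a ha => h1 a ha) (fun a _ => h2 a)
  rw [Finset.sum_const, nsmul_eq_mul, mul_one] at h
  exact (ZMod.natCast_eq_zero_iff_even).1 h

/-- an assignment of elements to their points has a singleton fibre -/
theorem single (E : Edge G s) (hk : ¬ G.Colorable k) (hn : Fintype.card V = 2 * k + 1)
    (σ : V → α) (hσ : ∀ w, σ w ∈ s w) : ∃ z, (univ.filter (fun w => σ w = z)).card = 1 := by
  by_contra hno
  push Not at hno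
  have h1 : th G univ ≤ (univ.image σ).card := th_le_image σ (fun u _ v _ huv he => by
    have h2 := E.disj huv
    have h3 : σ u = σ v := he
    exact Finset.disjoint_left.1 h2 (hσ u) (by rw [h3]; exact hσ v))
  have h2 := th_of_col hk
  have h3 : Fintype.card V = ∑ z ∈ univ.image σ, (univ.filter (fun w => σ w = z)).card := by
    rw [← card_univ]
    exact Finset.card_eq_sum_card_image σ univ
  have h4 : ∑ z ∈ univ.image σ, 2 ≤ ∑ z ∈ univ.image σ, (univ.filter (fun w => σ w = z)).card := by
    apply Finset.sum_le_sum
    intro z hz
    obtain ⟨w, -, hw⟩ := mem_image.1 hz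
    have h5 : 0 < (univ.filter (fun w => σ w = z)).card := card_pos.2 ⟨w, by simp [hw]⟩
    have h6 := hno z
    omega
  rw [sum_const, smul_eq_mul] at h4
  omega

/-- the assignment given by a perfect matching missing `e` -/
theorem data (E : Edge G s) (hk : ¬ G.Colorable k)
    (hcrit : ∀ v, (G.induce {w | w ≠ v}).Colorable k) (hconn : Gᶜ.Preconnected)
    (hn : Fintype.card V = 2 * k + 1) (e : V) :
    ∃ σ : V → α, (∀ w, σ w ∈ s w) ∧ (∀ w, w ≠ e → σ w ∉ s e) ∧
      ∀ Y : α → Prop, Even (univ.filter (fun w => w ≠ e ∧ Y (σ w))).card := by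
  obtain ⟨π, h1, h2, h3, h4⟩ := gallai_all hk hcrit hconn hn e
  have hex : ∀ w, ∃ c, c ∈ s w ∧ (w ≠ e → s w ∩ s (π w) = {c}) := by
    intro w
    by_cases hw : w = e
    · obtain ⟨c, d, -, hcd⟩ := card_eq_two.1 (E.two w)
      exact ⟨c, by rw [hcd]; simp, fun h => absurd hw h⟩
    · have h5 := h3 w hw
      have h6 : ¬ Disjoint (s w) (s (π w)) := fun h => h4 w (adj_of E h5.symm h)
      obtain ⟨a, b, hab, hw1⟩ := card_eq_two.1 (E.two w)
      obtain ⟨c, d, hcd, hw2⟩ := card_eq_two.1 (E.two (π w))
      have h7 : s w ≠ s (π w) := fun h => h5 (E.inj h).symm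
      rw [hw1, hw2, ndis] at h6
      rw [hw1, hw2, Ne, pair_eq] at h7
      have key : ∃ c', c' ∈ s w ∧ s w ∩ s (π w) = {c'} := by
        rcases h6 with rfl | rfl | rfl | rfl
        · refine ⟨a, by rw [hw1]; simp, ?_⟩
          ext x
          simp only [hw1, hw2, mem_inter, mem_insert, mem_singleton]
          grind
        · refine ⟨a, by rw [hw1]; simp, ?_⟩
          ext x
          simp only [hw1, hw2, mem_inter, mem_insert, mem_singleton]
          grind
        · refine ⟨b, by rw [hw1]; simp, ?_⟩
          ext x
          simp only [hw1, hw2, mem_inter, mem_insert, mem_singleton]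
          grind
        · refine ⟨b, by rw [hw1]; simp, ?_⟩
          ext x
          simp only [hw1, hw2, mem_inter, mem_insert, mem_singleton]
          grind
      obtain ⟨c', hc1, hc2⟩ := key
      exact ⟨c', hc1, fun _ => hc2⟩
  choose σ hσ1 hσ2 using hex
  have hπe : ∀ w, w ≠ e → π w ≠ e := by
    intro w hw he
    have := h2 w
    rw [he, h1] at this
    exact hw this.symm
  have hσπ : ∀ w, w ≠ e → σ (π w) = σ w := by
    intro w hw
    have e1 := hσ2 w hw
    have e2 := hσ2 (π w) (hπe w hw)
    rw [h2, inter_comm, e1] at e2
    exact (Finset.singleton_injective e2).symm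
  have hev : ∀ Y : α → Prop, Even (univ.filter (fun w => w ≠ e ∧ Y (σ w))).card := by
    intro Y
    apply even_of_invol _ π
    · intro w hw
      simp only [mem_filter, mem_univ, true_and] at hw ⊢
      exact ⟨hπe w hw.1, by rw [hσπ w hw.1]; exact hw.2⟩
    · exact h2
    · intro w hw
      simp only [mem_filter, mem_univ, true_and] at hw
      exact h3 w hw.1
  refine ⟨σ, hσ1, ?_, hev⟩
  intro w hw hwe
  -- modify at e
  set v := σ w with hv
  obtain ⟨z, hz⟩ := single E hk hn (Function.update σ e v) (by
    intro x
    by_cases hx : x = e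
    · rw [hx, Function.update_self]; exact hwe
    · rw [Function.update_of_ne hx]; exact hσ1 x)
  by_cases hzv : z = v
  · have h5 : 1 < (univ.filter (fun x => Function.update σ e v x = z)).card :=
      one_lt_card.2 ⟨e, by simp [hzv], w, by simp [hw, hzv, hv], hw.symm⟩
    omega
  · have h5 : univ.filter (fun x => Function.update σ e v x = z) =
        univ.filter (fun x => x ≠ e ∧ σ x = z) := by
      ext x
      simp only [mem_filter, mem_univ, true_and]
      by_cases hx : x = e
      · subst hx
        simp [Function.update_self, Ne.symm hzv]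
      · rw [Function.update_of_ne hx]
        simp [hx]
    have h6 := hev (fun y => y = z)
    rw [← h5, hz] at h6
    exact absurd h6 (by decide)

/-- reassigning one element -/
theorem fib_update (σ : V → α) (g : V) (y z : α) (hy : σ g = y) (hyz : y ≠ z) (x : α) :
    (univ.filter (fun w => Function.update σ g z w = x)).card + (if x = y then 1 else 0) =
      (univ.filter (fun w => σ w = x)).card + (if x = z then 1 else 0) := by
  by_cases hxy : x = y
  · have h1 : univ.filter (fun w => σ w = x) =
        insert g (univ.filter (fun w => Function.update σ g z w = x)) := by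
      ext w
      simp only [mem_filter, mem_univ, true_and, mem_insert]
      by_cases hw : w = g
      · subst hw
        simp [hy, hxy]
      · rw [Function.update_of_ne hw]
        simp [hw]
    have h2 : g ∉ univ.filter (fun w => Function.update σ g z w = x) := by
      simp [Function.update_self, hxy, hyz.symm]
    have h3 : ¬ x = z := fun e => hyz (hxy.symm.trans e)
    rw [h1, card_insert_of_notMem h2, if_pos hxy, if_neg h3]
  · by_cases hxz : x = z
    · have h1 : univ.filter (fun w => Function.update σ g z w = x) =
          insert g (univ.filter (fun w => σ w = x)) := by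
        ext w
        simp only [mem_filter, mem_univ, true_and, mem_insert]
        by_cases hw : w = g
        · subst hw
          simp [Function.update_self, hxz]
        · rw [Function.update_of_ne hw]
          simp [hw]
      have h2 : g ∉ univ.filter (fun w => σ w = x) := by
        simp [hy, hxz, hyz]
      rw [h1, card_insert_of_notMem h2, if_neg hxy, if_pos hxz]
    · have h1 : univ.filter (fun w => Function.update σ g z w = x) =
          univ.filter (fun w => σ w = x) := by
        ext w
        simp only [mem_filter, mem_univ, true_and]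
        by_cases hw : w = g
        · subst hw
          simp [Function.update_self, hy, Ne.symm hxy, Ne.symm hxz]
        · rw [Function.update_of_ne hw]
      rw [h1, if_neg hxy, if_neg hxz]

/-- no point lies in three elements -/
theorem no_three (E : Edge G s) (hk : ¬ G.Colorable k)
    (hcrit : ∀ v, (G.induce {w | w ≠ v}).Colorable k) (hconn : Gᶜ.Preconnected)
    (hn : Fintype.card V = 2 * k + 1) {v : α} {e1 e2 e3 : V} (h12 : e1 ≠ e2) (h13 : e1 ≠ e3)
    (h23 : e2 ≠ e3) (hv1 : v ∈ s e1) (hv2 : v ∈ s e2) (hv3 : v ∈ s e3) : False := by
  have hother : ∀ e : V, v ∈ s e → ∃ a, a ≠ v ∧ s e = {v, a} := by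
    intro e he
    obtain ⟨a, b, hab, h⟩ := card_eq_two.1 (E.two e)
    rw [h, mem_insert, mem_singleton] at he
    rcases he with rfl | rfl
    · exact ⟨b, hab.symm, h⟩
    · exact ⟨a, hab, by rw [h, pair_comm]⟩
  obtain ⟨a2, ha2, hs2⟩ := hother e2 hv2
  obtain ⟨a3, ha3, hs3⟩ := hother e3 hv3
  let Y : α → Prop := fun y => ∃ σ : V → α, (∀ w, σ w ∈ s w) ∧ (∀ w, σ w = v ↔ (w = e1 ∨ w = e2)) ∧
    ∀ z, Odd (univ.filter (fun w => σ w = z)).card ↔ z = y
  -- (i)
  have hY2 : Y a2 := by
    obtain ⟨σ, g1, g2, g3⟩ := data E hk hcrit hconn hn e1
    have hσ2 : σ e2 = a2 := by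
      have h1 := g1 e2
      rw [hs2, mem_insert, mem_singleton] at h1
      rcases h1 with h1 | h1
      · exact absurd (h1 ▸ hv1) (g2 e2 h12.symm)
      · exact h1
    -- σ' : e1 and e2 to v
    have hmem : ∀ w, Function.update (Function.update σ e1 v) e2 v w ∈ s w := by
      intro w
      by_cases hw2 : w = e2
      · rw [hw2, Function.update_self]; exact hv2
      · rw [Function.update_of_ne hw2]
        by_cases hw1 : w = e1
        · rw [hw1, Function.update_self]; exact hv1
        · rw [Function.update_of_ne hw1]; exact g1 w
    refine ⟨Function.update (Function.update σ e1 v) e2 v, hmem, ?_, ?_⟩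
    · intro w
      by_cases hw2 : w = e2
      · simp [hw2]
      · rw [Function.update_of_ne hw2]
        by_cases hw1 : w = e1
        · simp [hw1]
        · rw [Function.update_of_ne hw1]
          constructor
          · intro h
            exact absurd (h ▸ hv1) (g2 w hw1)
          · rintro (h | h)
            · exact absurd h hw1
            · exact absurd h hw2
    · intro z
      have h1 := fib_update (Function.update σ e1 v) e2 a2 v (by
        rw [Function.update_of_ne h12.symm]; exact hσ2) ha2 z
      have h2 := g3 (fun y => y = z)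
      have h3 : (univ.filter (fun w => Function.update σ e1 v w = z)).card =
          (univ.filter (fun w => w ≠ e1 ∧ σ w = z)).card + (if z = v then 1 else 0) := by
        by_cases hz : z = v
        · have h4 : univ.filter (fun w => Function.update σ e1 v w = z) =
              insert e1 (univ.filter (fun w => w ≠ e1 ∧ σ w = z)) := by
            ext w
            simp only [mem_filter, mem_univ, true_and, mem_insert]
            by_cases hw : w = e1
            · subst hw
              simp [hz]
            · rw [Function.update_of_ne hw]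
              simp [hw]
          rw [h4, card_insert_of_notMem (by simp), if_pos hz]
        · have h4 : univ.filter (fun w => Function.update σ e1 v w = z) =
              univ.filter (fun w => w ≠ e1 ∧ σ w = z) := by
            ext w
            simp only [mem_filter, mem_univ, true_and]
            by_cases hw : w = e1
            · subst hw
              simp [Ne.symm hz]
            · rw [Function.update_of_ne hw]
              simp [hw]
          rw [h4, if_neg hz, add_zero]
      rw [h3] at h1
      have h5 : ∀ n m : ℕ, Even n → (m + (if z = a2 then 1 else 0) =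
          n + (if z = v then 1 else 0) + (if z = v then 1 else 0)) → (Odd m ↔ z = a2) := by
        intro n m hn' hm
        by_cases hz2 : z = a2
        · have hzv : z ≠ v := fun e => ha2 (hz2.symm.trans e)
          rw [if_pos hz2, if_neg hzv] at hm
          rw [Nat.even_iff] at hn'
          rw [Nat.odd_iff]
          constructor
          · intro _; exact hz2
          · intro _; omega
        · rw [if_neg hz2] at hm
          rw [Nat.even_iff] at hn'
          rw [Nat.odd_iff]
          constructor
          · intro h
            by_cases hzv : z = v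
            · rw [if_pos hzv] at hm; omega
            · rw [if_neg hzv] at hm; omega
          · intro h; exact absurd h hz2
      exact h5 _ _ h2 h1
  -- (ii)
  have hclos : ∀ g y z, s g = {y, z} → v ∉ s g → Y y → Y z := by
    rintro g y z hg hvg ⟨σ, g1, g2, g3⟩
    have hyz : y ≠ z := ne_of_card E hg
    have hyv : y ≠ v := fun e => hvg (by rw [hg, e]; simp)
    have hzv : z ≠ v := fun e => hvg (by rw [hg, e]; simp)
    have hge : ¬ (g = e1 ∨ g = e2) := by
      rintro (h | h)
      · exact hvg (h ▸ hv1)
      · exact hvg (h ▸ hv2)
    have main : ∀ p q, s g = {p, q} → p ≠ q → q ≠ v → σ g = p →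
        (∀ w, Function.update σ g q w ∈ s w) ∧
        (∀ w, Function.update σ g q w = v ↔ (w = e1 ∨ w = e2)) ∧
        ∀ x, (univ.filter (fun w => Function.update σ g q w = x)).card + (if x = p then 1 else 0) =
          (univ.filter (fun w => σ w = x)).card + (if x = q then 1 else 0) := by
      intro p q hpq hne hqv hσg
      refine ⟨?_, ?_, fun x => fib_update σ g p q hσg hne x⟩
      · intro w
        by_cases hw : w = g
        · rw [hw, Function.update_self, hpq]; simp
        · rw [Function.update_of_ne hw]; exact g1 w
      · intro w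
        by_cases hw : w = g
        · rw [hw, Function.update_self]
          exact ⟨fun h => absurd h hqv, fun h => absurd h hge⟩
        · rw [Function.update_of_ne hw]; exact g2 w
    have h1 := g1 g
    rw [hg, mem_insert, mem_singleton] at h1
    rcases h1 with h1 | h1
    · obtain ⟨m1, m2, m3⟩ := main y z hg hyz hzv h1
      refine ⟨_, m1, m2, ?_⟩
      intro x
      have h2 := m3 x
      have h3 := g3 x
      rw [Nat.odd_iff] at h3 ⊢
      by_cases hxy : x = y
      · have hxz : x ≠ z := fun e => hyz (hxy.symm.trans e)
        rw [if_pos hxy, if_neg hxz] at h2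
        have := h3.2 hxy
        constructor
        · intro _; omega
        · intro e; exact absurd e hxz
      · have h3' : ¬ ((univ.filter (fun w => σ w = x)).card % 2 = 1) := fun h => hxy (h3.1 h)
        rw [if_neg hxy] at h2
        by_cases hxz : x = z
        · rw [if_pos hxz] at h2
          exact ⟨fun _ => hxz, fun _ => by omega⟩
        · rw [if_neg hxz] at h2
          exact ⟨fun _ => by omega, fun e => absurd e hxz⟩
    · obtain ⟨m1, m2, m3⟩ := main z y (by rw [hg, pair_comm]) hyz.symm hyv h1
      refine ⟨_, m1, m2, ?_⟩
      intro x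
      have h2 := m3 x
      have h3 := g3 x
      rw [Nat.odd_iff] at h3 ⊢
      by_cases hxy : x = y
      · have hxz : x ≠ z := fun e => hyz (hxy.symm.trans e)
        rw [if_pos hxy, if_neg hxz] at h2
        have := h3.2 hxy
        constructor
        · intro _; omega
        · intro e; exact absurd e hxz
      · have h3' : ¬ ((univ.filter (fun w => σ w = x)).card % 2 = 1) := fun h => hxy (h3.1 h)
        rw [if_neg hxy] at h2
        by_cases hxz : x = z
        · rw [if_pos hxz] at h2
          exact ⟨fun _ => hxz, fun _ => by omega⟩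
        · rw [if_neg hxz] at h2
          exact ⟨fun _ => by omega, fun e => absurd e hxz⟩
  -- (iii)
  have hY3 : ¬ Y a3 := by
    rintro ⟨σ, g1, g2, g3⟩
    have hσ3 : σ e3 = a3 := by
      have h1 := g1 e3
      rw [hs3, mem_insert, mem_singleton] at h1
      rcases h1 with h1 | h1
      · rcases (g2 e3).1 h1 with h | h
        · exact absurd h.symm h13
        · exact absurd h.symm h23
      · exact h1
    obtain ⟨z, hz⟩ := single E hk hn (Function.update σ e3 v) (by
      intro w
      by_cases hw : w = e3
      · rw [hw, Function.update_self]; exact hv3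
      · rw [Function.update_of_ne hw]; exact g1 w)
    have h1 := fib_update σ e3 a3 v hσ3 ha3 z
    have h2 := g3 z
    rw [Nat.odd_iff] at h2
    have h3 : univ.filter (fun w => σ w = v) = {e1, e2} := by
      ext w
      simp [g2 w]
    by_cases hzv : z = v
    · subst hzv
      have h4 : z ≠ a3 := ha3.symm
      rw [h3, card_pair h12, if_neg h4, if_pos rfl] at h1
      omega
    · by_cases hz3 : z = a3
      · have := h2.2 hz3
        rw [if_pos hz3, if_neg hzv] at h1
        omega
      · have : ¬ ((univ.filter (fun w => σ w = z)).card % 2 = 1) := fun h => hz3 (h2.1 h)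
        rw [if_neg hz3, if_neg hzv] at h1
        omega
  -- (iv)
  have hYv : ¬ Y v := by
    rintro ⟨σ, g1, g2, g3⟩
    have h3 : univ.filter (fun w => σ w = v) = {e1, e2} := by
      ext w
      simp [g2 w]
    have h4 := (g3 v).2 rfl
    rw [h3, card_pair h12] at h4
    exact absurd h4 (by decide)
  -- (v)
  set T : Finset V := univ.filter (fun w => ∃ y ∈ s w, Y y) with hT
  have hall : ∀ w ∈ T, ∀ x ∈ s w, x ≠ v → Y x := by
    intro w hw x hx hxv
    simp only [hT, mem_filter, mem_univ, true_and] at hw
    obtain ⟨y, hy, hYy⟩ := hw
    by_cases hxy : x = y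
    · rw [hxy]; exact hYy
    · obtain ⟨a, b, hab, h⟩ := card_eq_two.1 (E.two w)
      have hsw : s w = {y, x} := by
        rw [h] at hx hy ⊢
        rw [mem_insert, mem_singleton] at hx hy
        rw [pair_eq]
        grind
      refine hclos w y x hsw ?_ hYy
      rw [hsw, mem_insert, mem_singleton]
      rintro (h | h)
      · exact hYv (h ▸ hYy)
      · exact hxv h.symm
  have key : ∀ e : V, v ∈ s e → Even (T.erase e).card := by
    intro e he
    obtain ⟨σ, g1, g2, g3⟩ := data E hk hcrit hconn hn e
    have h1 : univ.filter (fun w => w ≠ e ∧ Y (σ w)) = T.erase e := by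
      ext w
      simp only [mem_filter, mem_univ, true_and, mem_erase]
      constructor
      · rintro ⟨h2, h3⟩
        refine ⟨h2, ?_⟩
        simp only [hT, mem_filter, mem_univ, true_and]
        exact ⟨σ w, g1 w, h3⟩
      · rintro ⟨h2, h3⟩
        exact ⟨h2, hall w h3 _ (g1 w) (fun h => g2 w h2 (h ▸ he))⟩
    rw [← h1]
    exact g3 Y
  have k2 := key e2 hv2
  have k3 := key e3 hv3
  have hT2 : e2 ∈ T := by
    simp only [hT, mem_filter, mem_univ, true_and]
    exact ⟨a2, by rw [hs2]; simp, hY2⟩
  have hT3 : e3 ∉ T := by
    intro h
    exact hY3 (hall e3 h a3 (by rw [hs3]; simp) ha3)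
  rw [erase_eq_of_notMem hT3] at k3
  rw [card_erase_of_mem hT2] at k2
  have hpos : 0 < T.card := card_pos.2 ⟨_, hT2⟩
  rw [Nat.even_iff] at k2 k3
  omega

end Pool.Agent.CoL18
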