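import Mathlib

/-!
# CoL18: pairs of disjoint two-element sets of points

`M a b c d` says that the elements `{a, b}` and `{c, d}` form a pair of the matching, `U a b` that the
element `{a, b}` is unmatched.  The rules `r1`, `r2` say that a matching with the least number of
conflicts cannot be improved by re-pairing a pair involved in a conflict.
-/

set_option autoImplicit false

namespace Pool.Agent.CoL18

structure Sys {α : Type*} (M : α → α → α → α → Prop) (U : α → α → Prop) : Prop where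
  s1 : ∀ a b c d, M a b c d → M b a c d
  s2 : ∀ a b c d, M a b c d → M c d a b
  d1 : ∀ a b c d, M a b c d → a ≠ b
  d2 : ∀ a b c d, M a b c d → a ≠ c
  fn : ∀ a b c d c' d', M a b c d → M a b c' d' → (c = c' ∧ d = d') ∨ (c = d' ∧ d = c')
  us : ∀ a b, U a b → U b a
  ud : ∀ a b, U a b → a ≠ b
  um : ∀ a b c d, U a b → ¬ M a b c d
  r1 : ∀ a b c d x y z w, M a b c d → M b c a d → M x y z w →
    ¬ (x = c ∧ y = d) → ¬ (x = d ∧ y = c) →
    a ≠ x → a ≠ y → b ≠ x → b ≠ y → c ≠ z → c ≠ w → d ≠ z → d ≠ w →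
    M a x b y ∨ M a y b x ∨ M c z d w ∨ M c w d z
  r2 : ∀ a b c d x y, M a b c d → M b c a d → U x y → a ≠ x → a ≠ y → b ≠ x → b ≠ y →
    M a x b y ∨ M a y b x

variable {α : Type*} {M : α → α → α → α → Prop} {U : α → α → Prop}

/-- the four-cycle `a b c d` of a conflict -/
abbrev Cyc (M : α → α → α → α → Prop) (a b c d : α) : Prop := M a b c d ∧ M b c a d

/-- a point outside the four-set -/
abbrev Out (a b c d x : α) : Prop := x ≠ a ∧ x ≠ b ∧ x ≠ c ∧ x ≠ d

theorem Out.rot {a b c d x : α} (h : Out a b c d x) : Out b c d a x := ⟨h.2.1, h.2.2.1, h.2.2.2, h.1⟩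

theorem Out.refl {a b c d x : α} (h : Out a b c d x) : Out c b a d x := ⟨h.2.2.1, h.2.1, h.1, h.2.2.2⟩

namespace Sys

theorem s3 (S : Sys M U) {a b c d : α} (h : M a b c d) : M a b d c :=
  S.s2 _ _ _ _ (S.s1 _ _ _ _ (S.s2 _ _ _ _ h))

theorem dist (S : Sys M U) {a b c d : α} (h : M a b c d) :
    a ≠ b ∧ a ≠ c ∧ a ≠ d ∧ b ≠ c ∧ b ≠ d ∧ c ≠ d :=
  ⟨S.d1 _ _ _ _ h, S.d2 _ _ _ _ h, S.d2 _ _ _ _ (S.s3 h), S.d2 _ _ _ _ (S.s1 _ _ _ _ h),
    S.d2 _ _ _ _ (S.s3 (S.s1 _ _ _ _ h)), S.d1 _ _ _ _ (S.s2 _ _ _ _ h)⟩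

theorem sy (S : Sys M U) : ∀ a b c d, M a b c d →
    M b a c d ∧ M a b d c ∧ M b a d c ∧ M c d a b ∧ M d c a b ∧ M c d b a ∧ M d c b a :=
  fun _ _ _ _ h => ⟨S.s1 _ _ _ _ h, S.s3 h, S.s3 (S.s1 _ _ _ _ h), S.s2 _ _ _ _ h,
    S.s1 _ _ _ _ (S.s2 _ _ _ _ h), S.s3 (S.s2 _ _ _ _ h), S.s1 _ _ _ _ (S.s3 (S.s2 _ _ _ _ h))⟩

theorem rot (S : Sys M U) {a b c d : α} (h : Cyc M a b c d) : Cyc M b c d a :=
  ⟨S.s3 h.2, S.s3 (S.s2 _ _ _ _ h.1)⟩

theorem refl (S : Sys M U) {a b c d : α} (h : Cyc M a b c d) : Cyc M c b a d :=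
  ⟨S.s1 _ _ _ _ h.2, S.s1 _ _ _ _ h.1⟩


/-- re-pairing the pair `{a b, c d}` with `{x y, z w}` -/
theorem rule (S : Sys M U) {a b c d x y z w : α} (h : Cyc M a b c d) (hM : M x y z w)
    (hne : ¬ ((x = c ∧ y = d) ∨ (x = d ∧ y = c)))
    (h1 : a ≠ x ∧ a ≠ y ∧ b ≠ x ∧ b ≠ y) (h2 : c ≠ z ∧ c ≠ w ∧ d ≠ z ∧ d ≠ w) :
    M a x b y ∨ M a y b x ∨ M c z d w ∨ M c w d z :=
  S.r1 a b c d x y z w h.1 h.2 hM (fun e => hne (Or.inl e)) (fun e => hne (Or.inr e))
    h1.1 h1.2.1 h1.2.2.1 h1.2.2.2 h2.1 h2.2.1 h2.2.2.1 h2.2.2.2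

/-- the partner of an element is unique -/
theorem uniq (S : Sys M U) {a b c d c' d' : α} (h : M a b c d) (h' : M a b c' d') :
    (c = c' ∧ d = d') ∨ (c = d' ∧ d = c') := S.fn _ _ _ _ _ _ h h'

/-- a pair `{a x, b y}` -/
theorem t12 (S : Sys M U) {a b c d x y : α} (h : Cyc M a b c d) (hx : Out a b c d x)
    (hy : Out a b c d y) (hM : M a x b y) : M a c b x ∨ M b d a y := by
  have h0 := S.dist h.1
  have h1 := S.dist hM
  obtain ⟨x1, x2, x3, x4⟩ := hx
  obtain ⟨y1, y2, y3, y4⟩ := hy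
  -- bc with ax, ad with by
  have h2 := S.rule (S.rot h) hM (by grind) (by grind) (by grind)
  have s1 := S.s1
  have s2 := S.s2
  have fn := S.fn
  obtain ⟨h3, h4⟩ := h
  clear S
  grind

/-- there is no pair `{a x, c y}` -/
theorem t13 (S : Sys M U) {a b c d x y : α} (h : Cyc M a b c d) (hx : Out a b c d x)
    (hy : Out a b c d y) : ¬ M a x c y := by
  intro hM
  have h0 := S.dist h.1
  have h1 := S.dist hM
  obtain ⟨x1, x2, x3, x4⟩ := hx
  obtain ⟨y1, y2, y3, y4⟩ := hy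
  -- ab with cy, cd with ax
  have h2 := S.rule h (S.s2 _ _ _ _ hM) (by grind) (by grind) (by grind)
  -- bc with ax, ad with cy
  have h3 := S.rule (S.rot h) hM (by grind) (by grind) (by grind)
  have s1 := S.s1
  have s2 := S.s2
  have fn := S.fn
  obtain ⟨h4, h5⟩ := h
  clear S
  grind

/-- a pair `{a x, u v}` with `u, v` outside -/
theorem ig (S : Sys M U) {a b c d x u v : α} (h : Cyc M a b c d) (hx : Out a b c d x)
    (hu : Out a b c d u) (hv : Out a b c d v) (hM : M a x u v) :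
    (M a c d x ∨ M a u b v ∨ M a v b u) ∧ (M a c b x ∨ M a u d v ∨ M a v d u) := by
  have h0 := S.dist h.1
  have h1 := S.dist hM
  obtain ⟨x1, x2, x3, x4⟩ := hx
  obtain ⟨u1, u2, u3, u4⟩ := hu
  obtain ⟨v1, v2, v3, v4⟩ := hv
  -- ab with uv, cd with ax
  have h2 := S.rule h (S.s2 _ _ _ _ hM) (by grind) (by grind) (by grind)
  -- bc with ax, ad with uv
  have h3 := S.rule (S.rot h) hM (by grind) (by grind) (by grind)
  have s1 := S.s1
  have s2 := S.s2
  have fn := S.fn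
  obtain ⟨h4, h5⟩ := h
  clear S
  grind

/-- there is no pair outside -/
theorem gg (S : Sys M U) {a b c d u v w z : α} (h : Cyc M a b c d) (hu : Out a b c d u)
    (hv : Out a b c d v) (hw : Out a b c d w) (hz : Out a b c d z) : ¬ M u v w z := by
  intro hM
  have h0 := S.dist h.1
  have h1 := S.dist hM
  have t12 : ∀ x y, Out a b c d x → Out a b c d y → M a x b y → M a c b x ∨ M b d a y :=
    fun x y hx hy hM => S.t12 h hx hy hM
  have t23 : ∀ x y, Out a b c d x → Out a b c d y → M b x c y → M b d c x ∨ M c a b y :=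
    fun x y hx hy hM => S.t12 (S.rot h) hx.rot hy.rot hM
  have t34 : ∀ x y, Out a b c d x → Out a b c d y → M c x d y → M c a d x ∨ M d b c y :=
    fun x y hx hy hM => S.t12 (S.rot (S.rot h)) hx.rot.rot hy.rot.rot hM
  have t41 : ∀ x y, Out a b c d x → Out a b c d y → M d x a y → M d b a x ∨ M a c d y :=
    fun x y hx hy hM => S.t12 (S.rot (S.rot (S.rot h))) hx.rot.rot.rot hy.rot.rot.rot hM
  obtain ⟨u1, u2, u3, u4⟩ := id hu
  obtain ⟨v1, v2, v3, v4⟩ := id hv
  obtain ⟨w1, w2, w3, w4⟩ := id hw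
  obtain ⟨z1, z2, z3, z4⟩ := id hz
  have h2 := S.rule h hM (by grind) (by grind) (by grind)
  have h3 := S.rule h (S.s2 _ _ _ _ hM) (by grind) (by grind) (by grind)
  have h4 := S.rule (S.rot h) hM (by grind) (by grind) (by grind)
  have h5 := S.rule (S.rot h) (S.s2 _ _ _ _ hM) (by grind) (by grind) (by grind)
  have s1 := S.s1
  have s2 := S.s2
  have fn := S.fn
  obtain ⟨h6, h7⟩ := h
  clear S
  grind

/-- no unmatched element outside -/
theorem ug (S : Sys M U) {a b c d u v : α} (h : Cyc M a b c d) (hu : Out a b c d u)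
    (hv : Out a b c d v) : ¬ U u v := by
  intro hM
  have h0 := S.dist h.1
  have h1 := S.ud _ _ hM
  have t12 : ∀ x y, Out a b c d x → Out a b c d y → M a x b y → M a c b x ∨ M b d a y :=
    fun x y hx hy hM => S.t12 h hx hy hM
  have t23 : ∀ x y, Out a b c d x → Out a b c d y → M b x c y → M b d c x ∨ M c a b y :=
    fun x y hx hy hM => S.t12 (S.rot h) hx.rot hy.rot hM
  have t34 : ∀ x y, Out a b c d x → Out a b c d y → M c x d y → M c a d x ∨ M d b c y :=
    fun x y hx hy hM => S.t12 (S.rot (S.rot h)) hx.rot.rot hy.rot.rot hM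
  have t41 : ∀ x y, Out a b c d x → Out a b c d y → M d x a y → M d b a x ∨ M a c d y :=
    fun x y hx hy hM => S.t12 (S.rot (S.rot (S.rot h))) hx.rot.rot.rot hy.rot.rot.rot hM
  obtain ⟨u1, u2, u3, u4⟩ := id hu
  obtain ⟨v1, v2, v3, v4⟩ := id hv
  have h2 := S.r2 a b c d u v h.1 h.2 hM (by grind) (by grind) (by grind) (by grind)
  have h3 := S.r2 b c d a u v (S.rot h).1 (S.rot h).2 hM (by grind) (by grind) (by grind) (by grind)
  have h4 := S.r2 c d a b u v (S.rot (S.rot h)).1 (S.rot (S.rot h)).2 hM (by grind) (by grind)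
    (by grind) (by grind)
  have s1 := S.s1
  have s2 := S.s2
  have fn := S.fn
  obtain ⟨h6, h7⟩ := h
  clear S
  grind

/-- no unmatched element with one point in the four-set -/
theorem ui (S : Sys M U) {a b c d x : α} (h : Cyc M a b c d) (hx : Out a b c d x) : ¬ U a x := by
  intro hM
  have h0 := S.dist h.1
  have h1 := S.ud _ _ hM
  obtain ⟨x1, x2, x3, x4⟩ := id hx
  have h2 := S.r2 b c d a a x (S.rot h).1 (S.rot h).2 hM (by grind) (by grind) (by grind) (by grind)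
  have h3 := S.r2 c d a b a x (S.rot (S.rot h)).1 (S.rot (S.rot h)).2 hM (by grind) (by grind)
    (by grind) (by grind)
  have s1 := S.s1
  have s2 := S.s2
  have fn := S.fn
  obtain ⟨h6, h7⟩ := h
  clear S
  grind

end Sys

end Pool.Agent.CoL18
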