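import Pool.Agent.CoL18.Sys

/-!
# CoL18: the structure around a conflict
-/

set_option autoImplicit false
set_option linter.unusedVariables false

namespace Pool.Agent.CoL18

variable {α : Type*} {M : α → α → α → α → Prop} {U : α → α → Prop}

/-- all rules around the four-cycle `a b c d` -/
structure Tab (M : α → α → α → α → Prop) (U : α → α → Prop) (a b c d : α) : Prop where
  t12 : ∀ x y, Out a b c d x → Out a b c d y → M a x b y → M a c b x ∨ M b d a y
  t23 : ∀ x y, Out a b c d x → Out a b c d y → M b x c y → M b d c x ∨ M c a b y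
  t34 : ∀ x y, Out a b c d x → Out a b c d y → M c x d y → M c a d x ∨ M d b c y
  t41 : ∀ x y, Out a b c d x → Out a b c d y → M d x a y → M d b a x ∨ M a c d y
  t13 : ∀ x y, Out a b c d x → Out a b c d y → ¬ M a x c y
  t24 : ∀ x y, Out a b c d x → Out a b c d y → ¬ M b x d y
  i1 : ∀ x u v, Out a b c d x → Out a b c d u → Out a b c d v → M a x u v →
    (M a c d x ∨ M a u b v ∨ M a v b u) ∧ (M a c b x ∨ M a u d v ∨ M a v d u)
  i2 : ∀ x u v, Out a b c d x → Out a b c d u → Out a b c d v → M b x u v →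
    (M b d a x ∨ M b u c v ∨ M b v c u) ∧ (M b d c x ∨ M b u a v ∨ M b v a u)
  i3 : ∀ x u v, Out a b c d x → Out a b c d u → Out a b c d v → M c x u v →
    (M c a b x ∨ M c u d v ∨ M c v d u) ∧ (M c a d x ∨ M c u b v ∨ M c v b u)
  i4 : ∀ x u v, Out a b c d x → Out a b c d u → Out a b c d v → M d x u v →
    (M d b c x ∨ M d u a v ∨ M d v a u) ∧ (M d b a x ∨ M d u c v ∨ M d v c u)
  gg : ∀ u v w z, Out a b c d u → Out a b c d v → Out a b c d w → Out a b c d z → ¬ M u v w z
  ug : ∀ u v, Out a b c d u → Out a b c d v → ¬ U u v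
  u1 : ∀ x, Out a b c d x → ¬ U a x
  u2 : ∀ x, Out a b c d x → ¬ U b x
  u3 : ∀ x, Out a b c d x → ¬ U c x
  u4 : ∀ x, Out a b c d x → ¬ U d x

theorem Sys.tab (S : Sys M U) {a b c d : α} (h : Cyc M a b c d) : Tab M U a b c d where
  t12 := fun x y hx hy hM => S.t12 h hx hy hM
  t23 := fun x y hx hy hM => S.t12 (S.rot h) hx.rot hy.rot hM
  t34 := fun x y hx hy hM => S.t12 (S.rot (S.rot h)) hx.rot.rot hy.rot.rot hM
  t41 := fun x y hx hy hM => S.t12 (S.rot (S.rot (S.rot h))) hx.rot.rot.rot hy.rot.rot.rot hM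
  t13 := fun x y hx hy => S.t13 h hx hy
  t24 := fun x y hx hy => S.t13 (S.rot h) hx.rot hy.rot
  i1 := fun x u v hx hu hv hM => S.ig h hx hu hv hM
  i2 := fun x u v hx hu hv hM => S.ig (S.rot h) hx.rot hu.rot hv.rot hM
  i3 := fun x u v hx hu hv hM => S.ig (S.rot (S.rot h)) hx.rot.rot hu.rot.rot hv.rot.rot hM
  i4 := fun x u v hx hu hv hM => S.ig (S.rot (S.rot (S.rot h))) hx.rot.rot.rot hu.rot.rot.rot
    hv.rot.rot.rot hM
  gg := fun u v w z hu hv hw hz => S.gg h hu hv hw hz
  ug := fun u v hu hv => S.ug h hu hv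
  u1 := fun x hx => S.ui h hx
  u2 := fun x hx => S.ui (S.rot h) hx.rot
  u3 := fun x hx => S.ui (S.rot (S.rot h)) hx.rot.rot
  u4 := fun x hx => S.ui (S.rot (S.rot (S.rot h))) hx.rot.rot.rot

/-- `u v` is an element -/
def El (M : α → α → α → α → Prop) (U : α → α → Prop) (u v : α) : Prop :=
  U u v ∨ ∃ p q, M u v p q

theorem El.symm (S : Sys M U) {u v : α} (h : El M U u v) : El M U v u := by
  rcases h with h | ⟨p, q, h⟩
  · exact Or.inl (S.us _ _ h)
  · exact Or.inr ⟨p, q, S.s1 _ _ _ _ h⟩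

/-- an element with exactly one point in the four-set -/
theorem Sys.one (S : Sys M U) {a b c d x p q : α} (h : Cyc M a b c d) (hx : Out a b c d x)
    (hM : M a x p q) :
    (∃ y, Out a b c d y ∧ M a c b y) ∨ (∃ y, Out a b c d y ∧ M a c d y) ∨
    (∃ y, Out a b c d y ∧ M b d a y) ∨ (∃ y, Out a b c d y ∧ M b d c y) := by
  have h0 := S.dist h.1
  have h1 := S.dist hM
  obtain ⟨t12, t23, t34, t41, t13, t24, i1, i2, i3, i4, gg, -, -, -, -, -⟩ := S.tab h
  have sy := S.sy
  have fn := S.fn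
  obtain ⟨x1, x2, x3, x4⟩ := id hx
  have hp : p = b ∨ p = c ∨ p = d ∨ Out a b c d p := by grind
  have hq : q = b ∨ q = c ∨ q = d ∨ Out a b c d q := by grind
  obtain ⟨h6, h7⟩ := h
  clear S
  rcases hp with rfl | rfl | rfl | hp <;> rcases hq with rfl | rfl | rfl | hq <;> grind (ematch := 8) (instances := 3000)

/-- the partner of `{a, c}` is `{b, x}` and the partner of `{b, d}` meets the four-set in no further
point: the elements missing `a, b, c` -/
theorem Sys.bc1 (S : Sys M U) {a b c d x u v : α} (h : Cyc M a b c d) (hx : Out a b c d x)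
    (hM : M a c b x) (hno1 : ∀ y, Out a b c d y → ¬ M b d a y)
    (hno2 : ∀ y, Out a b c d y → ¬ M b d c y) (he : El M U u v)
    (hu : u ≠ a ∧ u ≠ b ∧ u ≠ c) (hv : v ≠ a ∧ v ≠ b ∧ v ≠ c) : M b d u v := by
  have h0 := S.dist h.1
  obtain ⟨t12, t23, t34, t41, t13, t24, i1, i2, i3, i4, gg, ug, u1, u2, u3, u4⟩ := S.tab h
  have sy := S.sy
  have fn := S.fn
  have us := S.us
  have huv : u ≠ v := by
    rcases he with he | ⟨p, q, he⟩
    · exact S.ud _ _ he
    · exact S.d1 _ _ _ _ he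
  have key : ∀ z, z ≠ a ∧ z ≠ b ∧ z ≠ c → z = d ∨ Out a b c d z := by grind
  have ku := key u hu
  have kv := key v hv
  clear key
  rcases he with he | ⟨p, q, he⟩
  · rcases ku with rfl | hu' <;> rcases kv with rfl | hv' <;> grind (ematch := 8) (instances := 3000)
  · have h1 := S.dist he
    have hp : p = a ∨ p = b ∨ p = c ∨ p = d ∨ Out a b c d p := by grind
    have hq : q = a ∨ q = b ∨ q = c ∨ q = d ∨ Out a b c d q := by grind
    obtain ⟨h6, h7⟩ := h
    clear S
    rcases ku with rfl | hu' <;> rcases kv with rfl | hv' <;>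
      rcases hp with rfl | rfl | rfl | rfl | hp <;> rcases hq with rfl | rfl | rfl | rfl | hq <;>
      grind (ematch := 8) (instances := 3000)

end Pool.Agent.CoL18
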