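import Pool.Agent.CoL18.Tab

/-!
# CoL18: the structure around a conflict, continued
-/

set_option autoImplicit false
set_option linter.unusedVariables false

namespace Pool.Agent.CoL18

variable {α : Type*} {M : α → α → α → α → Prop} {U : α → α → Prop}

/-- the partner of `{a, c}` is `{b, x}` and `b` lies in no matched element `{b, y}` with `y` outside and
different from `x`: the elements missing `b` -/
theorem Sys.bc2 (S : Sys M U) {a b c d x u v : α} (h : Cyc M a b c d) (hx : Out a b c d x)
    (hM : M a c b x) (hno1 : ∀ y, Out a b c d y → ¬ M b d a y)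
    (hno2 : ∀ y, Out a b c d y → ¬ M b d c y)
    (hno3 : ∀ y p q, Out a b c d y → y ≠ x → ¬ M b y p q) (he : El M U u v)
    (hu : u ≠ b) (hv : v ≠ b) (huv' : ¬ ((u = a ∨ u = c ∨ u = d) ∧ (v = a ∨ v = c ∨ v = d))) :
    M b d u v := by
  have h0 := S.dist h.1
  obtain ⟨t12, t23, t34, t41, t13, t24, i1, i2, i3, i4, gg, ug, u1, u2, u3, u4⟩ := S.tab h
  have sy := S.sy
  have fn := S.fn
  have us := S.us
  have huv : u ≠ v := by
    rcases he with he | ⟨p, q, he⟩
    · exact S.ud _ _ he
    · exact S.d1 _ _ _ _ he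
  have ku : u = a ∨ u = c ∨ u = d ∨ Out a b c d u := by grind
  have kv : v = a ∨ v = c ∨ v = d ∨ Out a b c d v := by grind
  rcases he with he | ⟨p, q, he⟩
  · rcases ku with rfl | rfl | rfl | hu' <;> rcases kv with rfl | rfl | rfl | hv' <;>
      grind (ematch := 8) (instances := 3000)
  · have h1 := S.dist he
    have hp : p = a ∨ p = b ∨ p = c ∨ p = d ∨ Out a b c d p := by grind
    have hq : q = a ∨ q = b ∨ q = c ∨ q = d ∨ Out a b c d q := by grind
    obtain ⟨h6, h7⟩ := h
    clear S ug u1 u2 u3 u4 us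
    rcases ku with rfl | rfl | rfl | hu' <;> rcases kv with rfl | rfl | rfl | hv' <;>
      rcases hp with rfl | rfl | rfl | rfl | hp <;> rcases hq with rfl | rfl | rfl | rfl | hq <;>
      grind (ematch := 8) (instances := 3000)

end Pool.Agent.CoL18
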